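import Pool.Agent.H516_Hankel.Torus

set_option autoImplicit false

open MeasureTheory Set Filter Topology Metric
open scoped ENNReal NNReal ComplexConjugate

namespace Pool.Agent.H516H

variable {n : ℕ}

lemma circ_eq (u : ℂ → ℂ) (R : ℝ) :
    ∫ s, u ((AddCircle.toCircle s : ℂ) * R) ∂(AddCircle.haarAddCircle : Measure UnitAddCircle) =
      Real.circleAverage u 0 R := by
  rw [AddCircle.integral_haarAddCircle, inv_one, one_smul,
    ← UnitAddCircle.intervalIntegral_preimage 0, Real.circleAverage_def]
  have h1 : ∀ x : ℝ, u ((AddCircle.toCircle (x : UnitAddCircle) : ℂ) * R) =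
      u (circleMap 0 R (2 * Real.pi * x)) := by
    intro x
    congr 1
    rw [AddCircle.toCircle_apply_mk, Circle.coe_exp, circleMap, zero_add, mul_comm]
    congr 3
    push_cast
    ring
  simp_rw [h1]
  rw [intervalIntegral.integral_comp_mul_left (fun θ => u (circleMap 0 R θ)) (by positivity)]
  simp

/-- circle averages of a holomorphic function on an annulus do not depend on the radius -/
lemma circ (u : ℂ → ℂ) {r R : ℝ} (h0 : 0 < r) (hle : r ≤ R)
    (hu : ∀ ζ : ℂ, r ≤ ‖ζ‖ → ‖ζ‖ ≤ R → DifferentiableAt ℂ u ζ) :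
    Real.circleAverage u 0 r = Real.circleAverage u 0 R := by
  rw [Real.circleAverage_eq_circleIntegral h0.ne',
    Real.circleAverage_eq_circleIntegral (h0.trans_le hle).ne']
  congr 1
  symm
  apply Complex.circleIntegral_sub_center_inv_smul_eq_of_differentiable_on_annulus_off_countable
    h0 hle (s := ∅) countable_empty
  · intro z hz
    rw [Set.mem_sdiff, mem_closedBall_zero_iff, mem_ball_zero_iff, not_lt] at hz
    exact (hu z hz.2 hz.1).continuousAt.continuousWithinAt
  · intro z hz
    rw [sdiff_empty, Set.mem_sdiff, mem_closedBall_zero_iff, mem_ball_zero_iff, not_le] at hz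
    exact hu z hz.2.le hz.1.le

/-- rotation invariance of the circle average -/
lemma circ_rot (u : ℂ → ℂ) (a : ℂ) :
    ∫ s, u ((AddCircle.toCircle s : ℂ) * a) ∂(AddCircle.haarAddCircle : Measure UnitAddCircle) =
      Real.circleAverage u 0 ‖a‖ := by
  obtain ⟨x, hx⟩ : ∃ x : UnitAddCircle, (AddCircle.toCircle x : ℂ) * ‖a‖ = a := by
    refine ⟨((Complex.arg a / (2 * Real.pi) : ℝ) : UnitAddCircle), ?_⟩
    rw [AddCircle.toCircle_apply_mk, Circle.coe_exp]
    have h1 : (2 * Real.pi / 1 * (Complex.arg a / (2 * Real.pi)) : ℝ) = Complex.arg a := by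
      field_simp
    rw [h1, mul_comm]
    exact Complex.norm_mul_exp_arg_mul_I a
  rw [← circ_eq, ← integral_add_right_eq_self
    (μ := (AddCircle.haarAddCircle : Measure UnitAddCircle))
    (fun s => u ((AddCircle.toCircle s : ℂ) * (‖a‖ : ℝ))) x]
  congr 1
  funext s
  congr 1
  rw [AddCircle.toCircle_add, Circle.coe_mul, mul_assoc, hx]

/-- the average over the torus -/
noncomputable def avg (k : (Fin n → ℂ) → ℂ) (z : Fin n → ℂ) : ℂ := ∫ t, k (act t z) ∂(tau n)

lemma act_single (t : Tn n) (s : UnitAddCircle) (j : Fin n) (z : Fin n → ℂ) :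
    act (t + Pi.single j s) z =
      Function.update (act t z) j ((AddCircle.toCircle s : ℂ) * act t z j) := by
  funext i
  by_cases h : i = j
  · subst h
    rw [Function.update_self, act_apply, act_apply, Pi.add_apply, Pi.single_eq_same,
      AddCircle.toCircle_add, Circle.coe_mul]
    ring
  · rw [Function.update_of_ne h, act_apply, act_apply, Pi.add_apply, Pi.single_eq_of_ne h,
      add_zero]

lemma avg_eq_circ {Ω : BddReinhardtDomain n} {k : (Fin n → ℂ) → ℂ}
    (hk : ContinuousOn k (star Ω)) {z : Fin n → ℂ} (hz : z ∈ star Ω) (j : Fin n) :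
    avg k z = ∫ t, Real.circleAverage (fun ζ => k (Function.update (act t z) j ζ)) 0 ‖z j‖
      ∂(tau n) := by
  have h1 : avg k z = ∫ s : UnitAddCircle, (∫ t, k (act (t + Pi.single j s) z) ∂(tau n))
      ∂AddCircle.haarAddCircle := by
    have h2 : ∀ s : UnitAddCircle, (∫ t, k (act (t + Pi.single j s) z) ∂(tau n)) = avg k z := by
      intro s
      exact integral_add_right_eq_self (μ := tau n) (fun t => k (act t z)) (Pi.single j s)
    simp_rw [h2]
    simp
  rw [h1, integral_integral_swap]
  · congr 1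
    funext t
    simp_rw [act_single]
    rw [circ_rot (fun ζ => k (Function.update (act t z) j ζ)) (act t z j), norm_act]
  · have hc : Continuous (fun p : UnitAddCircle × Tn n => k (act (p.2 + Pi.single j p.1) z)) := by
      refine hk.comp_continuous ?_ fun p => act_mem_star Ω hz _
      have h3 : Continuous (fun p : UnitAddCircle × Tn n =>
          ((p.2 + Pi.single j p.1 : Tn n), z)) := by
        refine Continuous.prodMk (continuous_snd.add ?_) continuous_const
        exact (continuous_single (A := fun _ : Fin n => UnitAddCircle) j).comp continuous_fst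
      exact continuous_act.comp h3
    exact hc.integrable_of_hasCompactSupport (HasCompactSupport.of_compactSpace _)

lemma avg_step {Ω : BddReinhardtDomain n} {k : (Fin n → ℂ) → ℂ}
    (hk : DifferentiableOn ℂ k (star Ω)) {z : Fin n → ℂ} (hz : z ∈ star Ω) (j : Fin n) {w : ℂ}
    (hw : w ≠ 0)
    (hann : ∀ ζ : ℂ, (‖ζ‖ ∈ uIcc ‖z j‖ ‖w‖) → Function.update z j ζ ∈ Ω.carrier) :
    avg k z = avg k (Function.update z j w) := by
  have hann' : ∀ ζ : ℂ, (‖ζ‖ ∈ uIcc ‖z j‖ ‖w‖) → Function.update z j ζ ∈ star Ω := by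
    intro ζ hζ
    refine ⟨hann ζ hζ, fun i => ?_⟩
    by_cases h : i = j
    · subst h
      rw [Function.update_self]
      intro h0
      rw [h0, norm_zero, mem_uIcc] at hζ
      have e1 := norm_pos_iff.2 hw
      have e2 := norm_pos_iff.2 (hz.2 i)
      rcases hζ with h3 | h3 <;> linarith
    · rw [Function.update_of_ne h]
      exact hz.2 i
  have hz' : Function.update z j w ∈ star Ω := hann' w right_mem_uIcc
  rw [avg_eq_circ hk.continuousOn hz j, avg_eq_circ hk.continuousOn hz' j]
  congr 1
  funext t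
  rw [Function.update_self]
  have e1 : ∀ ζ : ℂ, Function.update (act t (Function.update z j w)) j ζ =
      Function.update (act t z) j ζ := by
    intro ζ
    funext i
    by_cases h : i = j
    · subst h
      rw [Function.update_self, Function.update_self]
    · rw [Function.update_of_ne h, Function.update_of_ne h, act_apply, act_apply,
        Function.update_of_ne h]
  simp_rw [e1]
  have hd : ∀ ζ : ℂ, (‖ζ‖ ∈ uIcc ‖z j‖ ‖w‖) →
      DifferentiableAt ℂ (fun ζ => k (Function.update (act t z) j ζ)) ζ := by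
    intro ζ hζ
    have h1 : Function.update (act t z) j ζ ∈ star Ω := by
      have h2 := hann' ζ hζ
      refine ⟨mem_of_norm_eq Ω h2.1 fun i => ?_, fun i => ?_⟩
      · by_cases h : i = j
        · subst h
          rw [Function.update_self, Function.update_self]
        · rw [Function.update_of_ne h, Function.update_of_ne h, norm_act]
      · by_cases h : i = j
        · subst h
          have := h2.2 i
          rwa [Function.update_self] at this ⊢
        · rw [Function.update_of_ne h]
          exact act_ne t (hz.2 i)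
    have h3 : DifferentiableAt ℂ k (Function.update (act t z) j ζ) :=
      (hk _ h1).differentiableAt ((isOpen_star Ω).mem_nhds h1)
    have h4 : DifferentiableAt ℂ (fun ζ : ℂ => Function.update (act t z) j ζ) ζ := by
      rw [differentiableAt_pi]
      intro i
      by_cases h : i = j
      · subst h
        simp only [Function.update_self]
        exact differentiableAt_id
      · simp only [Function.update_of_ne h]
        exact differentiableAt_const _
    exact h3.comp ζ h4
  rcases le_total ‖z j‖ ‖w‖ with hle | hle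
  · exact circ _ (norm_pos_iff.2 (hz.2 j)) hle fun ζ h1 h2 => hd ζ (by
      rw [uIcc_of_le hle]; exact ⟨h1, h2⟩)
  · exact (circ _ (norm_pos_iff.2 hw) hle fun ζ h1 h2 => hd ζ (by
      rw [uIcc_of_ge hle]; exact ⟨h1, h2⟩)).symm

/-- local constancy of the average -/
lemma avg_local {Ω : BddReinhardtDomain n} {k : (Fin n → ℂ) → ℂ}
    (hk : DifferentiableOn ℂ k (star Ω)) {p : Fin n → ℂ} {r : ℝ} (hr : 0 < r)
    (hp : ball p r ⊆ Ω.carrier) {z w : Fin n → ℂ} (hz : z ∈ ball p r) (hz0 : ∀ j, z j ≠ 0)
    (hw : w ∈ ball p r) (hw0 : ∀ j, w j ≠ 0) : avg k z = avg k w := by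
  classical
  have hb : ∀ v : Fin n → ℂ, v ∈ ball p r ↔ ∀ j, v j ∈ ball (p j) r := by
    intro v
    rw [ball_pi _ hr]
    simp
  have key : ∀ S : Finset (Fin n), avg k z = avg k (S.piecewise w z) := by
    intro S
    induction S using Finset.induction_on with
    | empty => simp
    | insert j S hj ih =>
      rw [ih, Finset.piecewise_insert]
      have hv0 : ∀ i, (S.piecewise w z) i ≠ 0 := by
        intro i
        by_cases h : i ∈ S
        · rw [Finset.piecewise_eq_of_mem _ _ _ h]; exact hw0 i
        · rw [Finset.piecewise_eq_of_notMem _ _ _ h]; exact hz0 i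
      have hvb : (S.piecewise w z) ∈ ball p r := by
        rw [hb]
        intro i
        by_cases h : i ∈ S
        · rw [Finset.piecewise_eq_of_mem _ _ _ h]; exact (hb w).1 hw i
        · rw [Finset.piecewise_eq_of_notMem _ _ _ h]; exact (hb z).1 hz i
      apply avg_step hk ⟨hp hvb, hv0⟩ j (hw0 j)
      intro ζ hζ
      rw [Finset.piecewise_eq_of_notMem _ _ _ hj] at hζ
      have hpre : IsPreconnected (ball (p j) r) := (convex_ball (p j) r).isPreconnected
      have hζ0 : ∃ ζ0 ∈ ball (p j) r, ‖ζ0‖ = ‖ζ‖ := by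
        rcases le_total ‖z j‖ ‖w j‖ with hle | hle
        · rw [uIcc_of_le hle] at hζ
          obtain ⟨ζ0, h1, h2⟩ := hpre.intermediate_value ((hb z).1 hz j) ((hb w).1 hw j)
            continuous_norm.continuousOn hζ
          exact ⟨ζ0, h1, h2⟩
        · rw [uIcc_of_ge hle] at hζ
          obtain ⟨ζ0, h1, h2⟩ := hpre.intermediate_value ((hb w).1 hw j) ((hb z).1 hz j)
            continuous_norm.continuousOn hζ
          exact ⟨ζ0, h1, h2⟩
      obtain ⟨ζ0, h1, h2⟩ := hζ0
      have h3 : Function.update (S.piecewise w z) j ζ0 ∈ Ω.carrier := by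
        apply hp
        rw [hb]
        intro i
        by_cases h : i = j
        · subst h
          rw [Function.update_self]; exact h1
        · rw [Function.update_of_ne h]; exact (hb _).1 hvb i
      refine mem_of_norm_eq Ω h3 fun i => ?_
      by_cases h : i = j
      · subst h
        rw [Function.update_self, Function.update_self, h2]
      · rw [Function.update_of_ne h, Function.update_of_ne h]
  have h1 := key Finset.univ
  rwa [Finset.piecewise_univ] at h1

lemma exists_star_ball (p : Fin n → ℂ) {r : ℝ} (hr : 0 < r) :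
    ∃ w ∈ ball p r, ∀ j, w j ≠ 0 := by
  refine ⟨fun j => if p j = 0 then ((r / 2 : ℝ) : ℂ) else p j, ?_, fun j => ?_⟩
  · rw [ball_pi _ hr, mem_univ_pi]
    intro j
    by_cases h : p j = 0
    · simp only [h, if_true, mem_ball_zero_iff]
      rw [Complex.norm_real, Real.norm_of_nonneg (by positivity)]
      linarith
    · simp only [h, if_false]
      exact mem_ball_self hr
  · by_cases h : p j = 0
    · simp only [h, if_true]
      have : (r / 2 : ℝ) ≠ 0 := by positivity
      exact_mod_cast this
    · simp only [h, if_false]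
      exact h

/-- global constancy of the average -/
theorem avg_const {Ω : BddReinhardtDomain n} {k : (Fin n → ℂ) → ℂ}
    (hk : DifferentiableOn ℂ k (star Ω)) {z w : Fin n → ℂ} (hz : z ∈ star Ω) (hw : w ∈ star Ω) :
    avg k z = avg k w := by
  set S : Set (Fin n → ℂ) := {p | ∃ r : ℝ, 0 < r ∧ ball p r ⊆ Ω.carrier ∧
    ∀ v ∈ ball p r, (∀ j, v j ≠ 0) → avg k v = avg k z} with hS
  set S' : Set (Fin n → ℂ) := {p | ∃ r : ℝ, 0 < r ∧ ball p r ⊆ Ω.carrier ∧
    ∀ v ∈ ball p r, (∀ j, v j ≠ 0) → avg k v ≠ avg k z} with hS'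
  have hsub : ∀ {p q : Fin n → ℂ} {r : ℝ}, q ∈ ball p r → ∃ ρ : ℝ, 0 < ρ ∧
      ball q ρ ⊆ ball p r := by
    intro p q r hq
    exact Metric.isOpen_iff.1 isOpen_ball q hq
  have hSo : IsOpen S := by
    rw [Metric.isOpen_iff]
    rintro p ⟨r, hr, h1, h2⟩
    refine ⟨r, hr, fun q hq => ?_⟩
    obtain ⟨ρ, hρ, h3⟩ := hsub hq
    exact ⟨ρ, hρ, h3.trans h1, fun v hv => h2 v (h3 hv)⟩
  have hSo' : IsOpen S' := by
    rw [Metric.isOpen_iff]
    rintro p ⟨r, hr, h1, h2⟩
    refine ⟨r, hr, fun q hq => ?_⟩
    obtain ⟨ρ, hρ, h3⟩ := hsub hq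
    exact ⟨ρ, hρ, h3.trans h1, fun v hv => h2 v (h3 hv)⟩
  have hcov : Ω.carrier ⊆ S ∪ S' := by
    intro p hp
    obtain ⟨r, hr, h1⟩ := Metric.isOpen_iff.1 Ω.isOpen p hp
    obtain ⟨v, hv, hv0⟩ := exists_star_ball p hr
    by_cases h : avg k v = avg k z
    · left
      refine ⟨r, hr, h1, fun u hu hu0 => ?_⟩
      rw [← h]
      exact avg_local hk hr h1 hu hu0 hv hv0
    · right
      refine ⟨r, hr, h1, fun u hu hu0 h2 => h ?_⟩
      rw [← h2]
      exact avg_local hk hr h1 hv hv0 hu hu0
  have hdis : Ω.carrier ∩ (S ∩ S') = ∅ := by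
    rw [eq_empty_iff_forall_notMem]
    rintro p ⟨_, ⟨r, hr, _, h2⟩, ⟨r', hr', _, h2'⟩⟩
    obtain ⟨v, hv, hv0⟩ := exists_star_ball p (lt_min hr hr')
    exact h2' v (ball_subset_ball (min_le_right _ _) hv) hv0
      (h2 v (ball_subset_ball (min_le_left _ _) hv) hv0)
  have hzS : z ∈ S := by
    obtain ⟨r, hr, h1⟩ := Metric.isOpen_iff.1 Ω.isOpen z hz.1
    exact ⟨r, hr, h1, fun u hu hu0 => avg_local hk hr h1 hu hu0 (mem_ball_self hr) hz.2⟩
  rcases isPreconnected_iff_subset_of_disjoint.1 Ω.isConnected.isPreconnected S S' hSo hSo' hcov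
    hdis with h | h
  · obtain ⟨r, hr, _, h2⟩ := h hw.1
    exact (h2 w (mem_ball_self hr) hw.2).symm
  · have : z ∈ Ω.carrier ∩ (S ∩ S') := ⟨hz.1, hzS, h hz.1⟩
    rw [hdis] at this
    exact absurd this (notMem_empty _)

end Pool.Agent.H516H
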