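import Mathlib

set_option autoImplicit false

open scoped InnerProductSpace

namespace Pool.Agent.H516H

variable {E F : Type*} [NormedAddCommGroup E] [InnerProductSpace ℂ E] [CompleteSpace E]
  [NormedAddCommGroup F] [InnerProductSpace ℂ F] [CompleteSpace F]

lemma parseval {ι : Type*} (b : HilbertBasis ι ℂ E) (x : E) :
    HasSum (fun k => ‖⟪b k, x⟫_ℂ‖ ^ 2) (‖x‖ ^ 2) := by
  have h1 := b.hasSum_inner_mul_inner x x
  have h2 := RCLike.hasSum_re ℂ h1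
  rw [inner_self_eq_norm_sq] at h2
  refine h2.congr_fun ?_
  intro k
  have h3 : ⟪x, b k⟫_ℂ = (starRingEnd ℂ) ⟪b k, x⟫_ℂ := (inner_conj_symm _ _).symm
  rw [h3, mul_comm, Complex.mul_conj, Complex.normSq_eq_norm_sq]
  exact (Complex.ofReal_re _).symm

/-- The Hilbert-Schmidt norm bounds the sum over every finite orthonormal family. -/
theorem hs_bound {ι : Type*} (b : HilbertBasis ι ℂ E) (T : E →L[ℂ] F)
    (hs : Summable fun k => ‖T (b k)‖ ^ 2) {κ : Type*} {v : κ → E} (hv : Orthonormal ℂ v)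
    (s : Finset κ) : ∑ i ∈ s, ‖T (v i)‖ ^ 2 ≤ ∑' k, ‖T (b k)‖ ^ 2 := by
  classical
  set W : Submodule ℂ F := Submodule.span ℂ ((fun i => T (v i)) '' (s : Set κ)) with hW
  have : FiniteDimensional ℂ W := FiniteDimensional.span_of_finite ℂ (s.finite_toSet.image _)
  set c := stdOrthonormalBasis ℂ W with hc
  have hco : Orthonormal ℂ (fun l => (c l : F)) := c.orthonormal.comp_linearIsometry W.subtypeₗᵢ
  have h1 : ∀ i ∈ s, ‖T (v i)‖ ^ 2 = ∑ l, ‖⟪v i, T.adjoint (c l : F)⟫_ℂ‖ ^ 2 := by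
    intro i hi
    have hmem : T (v i) ∈ W := Submodule.subset_span ⟨i, hi, rfl⟩
    have h2 := c.sum_sq_norm_inner_right ⟨T (v i), hmem⟩
    have h3 : ‖(⟨T (v i), hmem⟩ : W)‖ = ‖T (v i)‖ := rfl
    rw [h3] at h2
    rw [← h2]
    refine Finset.sum_congr rfl fun l _ => ?_
    rw [ContinuousLinearMap.adjoint_inner_right, Submodule.coe_inner, norm_inner_symm]
  rw [Finset.sum_congr rfl h1, Finset.sum_comm]
  have h4 : ∀ l, ∑ i ∈ s, ‖⟪v i, T.adjoint (c l : F)⟫_ℂ‖ ^ 2 ≤ ‖T.adjoint (c l : F)‖ ^ 2 :=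
    fun l => hv.sum_inner_products_le _
  refine (Finset.sum_le_sum fun l _ => h4 l).trans ?_
  have h5 : ∀ l, HasSum (fun k => ‖⟪b k, T.adjoint (c l : F)⟫_ℂ‖ ^ 2)
      (‖T.adjoint (c l : F)‖ ^ 2) := fun l => parseval b _
  have h6 := hasSum_sum (s := Finset.univ) fun l _ => h5 l
  refine hasSum_le (fun k => ?_) h6 hs.hasSum
  have h7 : ∀ l, ‖⟪b k, T.adjoint (c l : F)⟫_ℂ‖ ^ 2 = ‖⟪(c l : F), T (b k)⟫_ℂ‖ ^ 2 := by
    intro l
    rw [ContinuousLinearMap.adjoint_inner_right, norm_inner_symm]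
  simp_rw [h7]
  exact hco.sum_inner_products_le _

end Pool.Agent.H516H
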