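import Pool.Agent.H516_Hankel.Lim
import Pool.Agent.H516_Hankel.HS

set_option autoImplicit false

open MeasureTheory Set Filter Topology Metric
open scoped ENNReal NNReal ComplexConjugate InnerProductSpace

namespace Pool.Agent.H516H

variable {n : ℕ}

lemma mon_nsmul (γ α : Fin n → ℤ) (k : ℕ) {z : Fin n → ℂ} (hz : ∀ j, z j ≠ 0) :
    mon (γ + k • α) z = mon γ z * mon α z ^ k := by
  induction k with
  | zero => simp
  | succ k ih => rw [succ_nsmul, ← add_assoc, mon_add _ _ hz, ih, pow_succ, mul_assoc]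

/-- mass near a point -/
lemma mass_pos {Ω : BddReinhardtDomain n} (γ : Fin n → ℤ) {S : Set (Fin n → ℂ)} {p : Fin n → ℂ}
    (hp : p ∈ star Ω) (hS : S ∈ 𝓝 p) (hSm : MeasurableSet S) :
    0 < ∫⁻ z in S, ENNReal.ofReal (‖mon γ z‖ ^ 2) ∂(mu Ω) := by
  rw [pos_iff_ne_zero, Ne, lintegral_eq_zero_iff
    (((measurable_mon γ).norm.pow_const 2).ennreal_ofReal)]
  intro h
  have h1 : ∀ᵐ z ∂((mu Ω).restrict S), False := by
    filter_upwards [h, ae_restrict_of_ae (ae_star Ω)] with z h1 h2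
    simp only [Pi.zero_apply, ENNReal.ofReal_eq_zero] at h1
    have h3 := norm_pos_iff.2 (mon_ne γ h2.2)
    have : 0 < ‖mon γ z‖ ^ 2 := by positivity
    linarith
  rw [ae_iff] at h1
  simp only [not_false_eq_true, Set.ofPred_true] at h1
  rw [Measure.restrict_apply_univ, Measure.restrict_apply hSm] at h1
  have h2 : S ∩ Ω.carrier ∈ 𝓝 p := inter_mem hS (Ω.isOpen.mem_nhds hp.1)
  exact (Measure.measure_pos_of_mem_nhds volume h2).ne' h1

lemma x_cont (α : Fin n → ℤ) {p : Fin n → ℂ} (hp : ∀ j, p j ≠ 0) :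
    ContinuousAt (fun z => ‖mon α z‖ ^ 2) p :=
  ((mon_differentiableAt α fun j => Or.inl (hp j)).continuousAt.norm).pow 2

/-- lower mass bound -/
lemma low {Ω : BddReinhardtDomain n} {α γ : Fin n → ℤ} {a : ℝ} (ha : 0 < a) {k : ℕ}
    (hk : NN Ω (γ - k • α) < ∞) :
    ∫⁻ z in {z | ‖mon α z‖ ^ 2 < a}, ENNReal.ofReal (‖mon γ z‖ ^ 2) ∂(mu Ω) ≤
      ENNReal.ofReal (nn Ω (γ - k • α) * a ^ k) := by
  have hm : MeasurableSet {z : Fin n → ℂ | ‖mon α z‖ ^ 2 < a} :=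
    measurableSet_lt ((measurable_mon α).norm.pow_const 2) measurable_const
  calc ∫⁻ z in {z | ‖mon α z‖ ^ 2 < a}, ENNReal.ofReal (‖mon γ z‖ ^ 2) ∂(mu Ω)
      ≤ ∫⁻ z in {z | ‖mon α z‖ ^ 2 < a},
          ENNReal.ofReal (‖mon (γ - k • α) z‖ ^ 2) * ENNReal.ofReal (a ^ k) ∂(mu Ω) := by
        apply lintegral_mono_ae
        filter_upwards [ae_restrict_of_ae (ae_star Ω), ae_restrict_mem hm] with z h1 h2
        rw [← ENNReal.ofReal_mul (by positivity)]
        apply ENNReal.ofReal_le_ofReal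
        have h3 := mon_nsmul (γ - k • α) α k h1.2
        rw [sub_add_cancel] at h3
        rw [h3, norm_mul, norm_pow, mul_pow, ← pow_mul, mul_comm k 2, pow_mul]
        have h4 : ‖mon α z‖ ^ 2 < a := h2
        gcongr
    _ = (∫⁻ z in {z | ‖mon α z‖ ^ 2 < a}, ENNReal.ofReal (‖mon (γ - k • α) z‖ ^ 2) ∂(mu Ω)) *
          ENNReal.ofReal (a ^ k) := by
        rw [lintegral_mul_const _ (((measurable_mon _).norm.pow_const 2).ennreal_ofReal)]
    _ ≤ NN Ω (γ - k • α) * ENNReal.ofReal (a ^ k) := by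
        gcongr
        exact setLIntegral_le_lintegral _ _
    _ = ENNReal.ofReal (nn Ω (γ - k • α) * a ^ k) := by
        rw [ENNReal.ofReal_mul (nn_pos hk).le, ofReal_nn hk]

/-- upper mass bound -/
lemma high {Ω : BddReinhardtDomain n} {α γ : Fin n → ℤ} {a : ℝ} (ha : 0 < a) {k : ℕ}
    (hk : NN Ω (γ + k • α) < ∞) :
    (∫⁻ z in {z | a < ‖mon α z‖ ^ 2}, ENNReal.ofReal (‖mon γ z‖ ^ 2) ∂(mu Ω)) *
      ENNReal.ofReal (a ^ k) ≤ ENNReal.ofReal (nn Ω (γ + k • α)) := by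
  have hm : MeasurableSet {z : Fin n → ℂ | a < ‖mon α z‖ ^ 2} :=
    measurableSet_lt measurable_const ((measurable_mon α).norm.pow_const 2)
  rw [ofReal_nn hk, ← lintegral_mul_const _ (((measurable_mon _).norm.pow_const 2).ennreal_ofReal)]
  refine le_trans ?_ (setLIntegral_le_lintegral {z | a < ‖mon α z‖ ^ 2} _)
  apply lintegral_mono_ae
  filter_upwards [ae_restrict_of_ae (ae_star Ω), ae_restrict_mem hm] with z h1 h2
  rw [← ENNReal.ofReal_mul (by positivity)]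
  apply ENNReal.ofReal_le_ofReal
  rw [mon_nsmul γ α k h1.2, norm_mul, norm_pow, mul_pow, ← pow_mul, mul_comm k 2, pow_mul]
  have h4 : a < ‖mon α z‖ ^ 2 := h2
  gcongr

/-- the growth argument -/
lemma no_growth {m C q : ℝ} (hm : 0 < m) (hq : 1 < q) (h : ∀ k : ℕ, m * q ^ k ≤ C) : False := by
  obtain ⟨k, hk⟩ := pow_unbounded_of_one_lt (C / m) hq
  rw [div_lt_iff₀ hm] at hk
  have := h k
  linarith

/-- going down the chain -/
lemma descend {Ω : BddReinhardtDomain n} {α γ : Fin n → ℤ} (hγ : Good Ω γ) {a ρ : ℝ} (ha : 0 < a)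
    (haρ : a < ρ) {p : Fin n → ℂ} (hp : p ∈ star Ω) (hpa : ‖mon α p‖ ^ 2 < a) :
    ∃ k : ℕ, Good Ω (γ - k • α) ∧ rr Ω α (γ - k • α) < ρ := by
  by_contra hcon
  push Not at hcon
  have hρ : 0 < ρ := ha.trans haρ
  have hgood : ∀ k : ℕ, Good Ω (γ - k • α) := by
    intro k
    induction k with
    | zero => simpa using hγ
    | succ k ih =>
      have h1 := hcon k ih
      by_contra h2
      have h3 : γ - k • α - α = γ - (k + 1) • α := by rw [succ_nsmul]; abel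
      rw [rr, h3, if_neg h2] at h1
      linarith
  have hdec : ∀ k : ℕ, nn Ω (γ - k • α) * ρ ^ k ≤ nn Ω γ := by
    intro k
    induction k with
    | zero => simp
    | succ k ih =>
      have h1 := hcon k (hgood k)
      have h3 : γ - k • α - α = γ - (k + 1) • α := by rw [succ_nsmul]; abel
      rw [rr, h3, if_pos (hgood (k + 1)), le_div_iff₀ (nn_pos (hgood (k + 1)).2)] at h1
      calc nn Ω (γ - (k + 1) • α) * ρ ^ (k + 1) = (ρ * nn Ω (γ - (k + 1) • α)) * ρ ^ k := by ring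
        _ ≤ nn Ω (γ - k • α) * ρ ^ k := by gcongr
        _ ≤ _ := ih
  set S : Set (Fin n → ℂ) := {z | ‖mon α z‖ ^ 2 < a} with hS
  have hSm : MeasurableSet S :=
    measurableSet_lt ((measurable_mon α).norm.pow_const 2) measurable_const
  have hSn : S ∈ 𝓝 p := (x_cont α hp.2).eventually_lt_const hpa
  have hmass := mass_pos γ hp hSn hSm
  have hfin : ∫⁻ z in S, ENNReal.ofReal (‖mon γ z‖ ^ 2) ∂(mu Ω) < ∞ :=
    (setLIntegral_le_lintegral _ _).trans_lt hγ.2
  set m := (∫⁻ z in S, ENNReal.ofReal (‖mon γ z‖ ^ 2) ∂(mu Ω)).toReal with hm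
  have hm0 : 0 < m := ENNReal.toReal_pos hmass.ne' hfin.ne
  refine no_growth (m := m) (C := nn Ω γ) (q := ρ / a) hm0 (by rwa [one_lt_div ha]) fun k => ?_
  have h1 := low (Ω := Ω) (α := α) (γ := γ) ha (hgood k).2
  rw [← hS, ← ENNReal.ofReal_toReal hfin.ne, ← hm] at h1
  have h2 := (ENNReal.ofReal_le_ofReal_iff
    (mul_nonneg (nn_pos (hgood k).2).le (by positivity))).1 h1
  calc m * (ρ / a) ^ k ≤ (nn Ω (γ - k • α) * a ^ k) * (ρ / a) ^ k := by gcongr
    _ = nn Ω (γ - k • α) * ρ ^ k := by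
        rw [mul_assoc, ← mul_pow, mul_div_cancel₀ _ ha.ne']
    _ ≤ _ := hdec k

/-- going up the chain -/
lemma ascend {Ω : BddReinhardtDomain n} {α γ : Fin n → ℤ} (hγ : ∀ k : ℕ, Good Ω (γ + k • α))
    {a ρ : ℝ} (hρ : 0 < ρ) (haρ : ρ < a) {p : Fin n → ℂ} (hp : p ∈ star Ω)
    (hpa : a < ‖mon α p‖ ^ 2) : ∃ k : ℕ, ρ < rr Ω α (γ + k • α) := by
  by_contra hcon
  push Not at hcon
  have ha : 0 < a := hρ.trans haρ
  have hinc : ∀ k : ℕ, nn Ω (γ + k • α) ≤ nn Ω γ * ρ ^ k := by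
    intro k
    induction k with
    | zero => simp
    | succ k ih =>
      have h1 := hcon (k + 1)
      have h3 : γ + (k + 1) • α - α = γ + k • α := by rw [succ_nsmul]; abel
      rw [rr, h3, if_pos (hγ k), div_le_iff₀ (nn_pos (hγ k).2)] at h1
      calc nn Ω (γ + (k + 1) • α) ≤ ρ * nn Ω (γ + k • α) := h1
        _ ≤ ρ * (nn Ω γ * ρ ^ k) := by gcongr
        _ = _ := by ring
  have hg0 : Good Ω γ := by simpa using hγ 0
  set S : Set (Fin n → ℂ) := {z | a < ‖mon α z‖ ^ 2} with hS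
  have hSm : MeasurableSet S :=
    measurableSet_lt measurable_const ((measurable_mon α).norm.pow_const 2)
  have hSn : S ∈ 𝓝 p := (x_cont α hp.2).eventually_const_lt hpa
  have hmass := mass_pos γ hp hSn hSm
  have hfin : ∫⁻ z in S, ENNReal.ofReal (‖mon γ z‖ ^ 2) ∂(mu Ω) < ∞ :=
    (setLIntegral_le_lintegral _ _).trans_lt hg0.2
  set m := (∫⁻ z in S, ENNReal.ofReal (‖mon γ z‖ ^ 2) ∂(mu Ω)).toReal with hm
  have hm0 : 0 < m := ENNReal.toReal_pos hmass.ne' hfin.ne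
  refine no_growth (m := m) (C := nn Ω γ) (q := a / ρ) hm0 (by rwa [one_lt_div hρ]) fun k => ?_
  have h1 := high (Ω := Ω) (α := α) (γ := γ) ha (hγ k).2
  rw [← hS, ← ENNReal.ofReal_toReal hfin.ne, ← hm, ← ENNReal.ofReal_mul hm0.le] at h1
  have h2 := (ENNReal.ofReal_le_ofReal_iff (nn_pos (hγ k).2).le).1 h1
  have h3 := h2.trans (hinc k)
  rw [div_pow, mul_div_assoc', div_le_iff₀ (by positivity)]
  exact h3

end Pool.Agent.H516H
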