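import Pool.Agent.H516_Hankel.Avg

set_option autoImplicit false

open MeasureTheory Set Filter Topology Metric
open scoped ENNReal NNReal ComplexConjugate

namespace Pool.Agent.H516H

variable {n : ℕ}

/-- the measure on `Ω` -/
noncomputable abbrev mu (Ω : BddReinhardtDomain n) : Measure (Fin n → ℂ) :=
  volume.restrict Ω.carrier

instance (Ω : BddReinhardtDomain n) : IsFiniteMeasure (mu Ω) :=
  ⟨by rw [Measure.restrict_apply_univ]; exact Ω.isBounded.measure_lt_top⟩

lemma measurable_act (t : Tn n) : Measurable (act t) :=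
  (continuous_act.comp (Continuous.prodMk continuous_const continuous_id)).measurable

lemma act_mp (t : Tn n) : MeasurePreserving (act t) volume volume := by
  have h1 : ∀ j : Fin n, MeasurePreserving
      (fun z : ℂ => (AddCircle.toCircle (t j) : ℂ) * z) volume volume := by
    intro j
    exact (rotation (AddCircle.toCircle (t j))).measurePreserving
  exact volume_preserving_pi h1

lemma act_preimage (Ω : BddReinhardtDomain n) (t : Tn n) :
    act t ⁻¹' Ω.carrier = Ω.carrier := by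
  ext z
  refine ⟨fun h => ?_, fun h => act_mem Ω h t⟩
  exact mem_of_norm_eq Ω h fun j => (norm_act t z j).symm

lemma act_mp_mu (Ω : BddReinhardtDomain n) (t : Tn n) :
    MeasurePreserving (act t) (mu Ω) (mu Ω) := by
  have := (act_mp t).restrict_preimage Ω.isOpen.measurableSet
  rwa [act_preimage] at this

lemma skew_mp (Ω : BddReinhardtDomain n) :
    MeasurePreserving (fun p : Tn n × (Fin n → ℂ) => (p.1, act p.1 p.2))
      ((tau n).prod (mu Ω)) ((tau n).prod (mu Ω)) := by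
  refine (MeasurePreserving.id (tau n)).skew_product ?_ ?_
  · exact continuous_act.measurable
  · exact ae_of_all _ fun t => (act_mp_mu Ω t).map_eq

lemma lint_avg {Ω : BddReinhardtDomain n} {F : (Fin n → ℂ) → ℝ≥0∞} (hF : AEMeasurable F (mu Ω)) :
    ∫⁻ z, F z ∂(mu Ω) = ∫⁻ z, ∫⁻ t, F (act t z) ∂(tau n) ∂(mu Ω) := by
  have h1 : AEMeasurable (fun p : Tn n × (Fin n → ℂ) => F p.2) ((tau n).prod (mu Ω)) :=
    hF.comp_snd
  have h2 : AEMeasurable (fun p : Tn n × (Fin n → ℂ) => F (act p.1 p.2))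
      ((tau n).prod (mu Ω)) := h1.comp_quasiMeasurePreserving (skew_mp Ω).quasiMeasurePreserving
  have h3 : ∫⁻ p, F p.2 ∂((tau n).prod (mu Ω)) = ∫⁻ z, F z ∂(mu Ω) := by
    rw [lintegral_prod_symm _ h1]
    simp
  have h4 : ∫⁻ p, F p.2 ∂((tau n).prod (mu Ω)) =
      ∫⁻ p, F (act p.1 p.2) ∂((tau n).prod (mu Ω)) := by
    have h5 := lintegral_map' (μ := (tau n).prod (mu Ω)) (f := fun p : Tn n × (Fin n → ℂ) => F p.2)
      (g := fun p : Tn n × (Fin n → ℂ) => (p.1, act p.1 p.2))
      (by rw [(skew_mp Ω).map_eq]; exact h1) (skew_mp Ω).measurable.aemeasurable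
    rw [(skew_mp Ω).map_eq] at h5
    exact h5
  rw [← h3, h4, lintegral_prod_symm _ h2]

lemma int_comp {Ω : BddReinhardtDomain n} {F : (Fin n → ℂ) → ℂ} (hF : Integrable F (mu Ω)) :
    Integrable (fun p : Tn n × (Fin n → ℂ) => F (act p.1 p.2)) ((tau n).prod (mu Ω)) := by
  have h1 : Integrable (fun p : Tn n × (Fin n → ℂ) => F p.2) ((tau n).prod (mu Ω)) :=
    hF.comp_snd (tau n)
  exact (skew_mp Ω).integrable_comp_of_integrable h1

lemma int_avg {Ω : BddReinhardtDomain n} {F : (Fin n → ℂ) → ℂ} (hF : Integrable F (mu Ω)) :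
    ∫ z, F z ∂(mu Ω) = ∫ z, ∫ t, F (act t z) ∂(tau n) ∂(mu Ω) := by
  have h1 : Integrable (fun p : Tn n × (Fin n → ℂ) => F p.2) ((tau n).prod (mu Ω)) :=
    hF.comp_snd (tau n)
  have h2 := int_comp hF
  have h3 : ∫ p, F p.2 ∂((tau n).prod (mu Ω)) = ∫ z, F z ∂(mu Ω) := by
    rw [integral_prod_symm _ h1]
    simp
  have h4 : ∫ p, F p.2 ∂((tau n).prod (mu Ω)) =
      ∫ p, F (act p.1 p.2) ∂((tau n).prod (mu Ω)) := by
    have h5 := integral_map (μ := (tau n).prod (mu Ω)) (f := fun p : Tn n × (Fin n → ℂ) => F p.2)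
      (φ := fun p : Tn n × (Fin n → ℂ) => (p.1, act p.1 p.2))
      (skew_mp Ω).measurable.aemeasurable
      (by rw [(skew_mp Ω).map_eq]; exact h1.aestronglyMeasurable)
    rw [(skew_mp Ω).map_eq] at h5
    exact h5
  rw [← h3, h4, integral_prod_symm _ h2]

/-- coordinate hyperplanes are null sets -/
lemma ae_ne_zero : ∀ᵐ z : Fin n → ℂ, ∀ j, z j ≠ 0 := by
  rw [ae_all_iff]
  intro j
  rw [ae_iff]
  have h1 : {z : Fin n → ℂ | ¬ z j ≠ 0} = Function.eval j ⁻¹' {0} := by
    ext z; simp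
  rw [h1]
  exact (Measure.quasiMeasurePreserving_eval (fun _ : Fin n => (volume : Measure ℂ)) j).preimage_null
    (by simp)

lemma ae_star (Ω : BddReinhardtDomain n) : ∀ᵐ z ∂(mu Ω), z ∈ star Ω := by
  filter_upwards [ae_restrict_mem Ω.isOpen.measurableSet, ae_restrict_of_ae ae_ne_zero]
    with z h1 h2
  exact ⟨h1, h2⟩

lemma exists_base (Ω : BddReinhardtDomain n) : ∃ z, z ∈ star Ω := by
  obtain ⟨p, hp⟩ := Ω.isConnected.nonempty
  obtain ⟨r, hr, h1⟩ := Metric.isOpen_iff.1 Ω.isOpen p hp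
  obtain ⟨v, hv, hv0⟩ := exists_star_ball p hr
  exact ⟨v, h1 hv, hv0⟩

/-- a point of `Ω` with nonzero coordinates -/
noncomputable def base (Ω : BddReinhardtDomain n) : Fin n → ℂ := (exists_base Ω).choose

lemma base_mem (Ω : BddReinhardtDomain n) : base Ω ∈ star Ω := (exists_base Ω).choose_spec

/-- the Laurent coefficient -/
noncomputable def coef (Ω : BddReinhardtDomain n) (g : (Fin n → ℂ) → ℂ) (δ : Fin n → ℤ) : ℂ :=
  avg (fun w => g w * mon (-δ) w) (base Ω)

theorem coef_spec {Ω : BddReinhardtDomain n} {g : (Fin n → ℂ) → ℂ}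
    (hg : DifferentiableOn ℂ g Ω.carrier) (δ : Fin n → ℤ) {z : Fin n → ℂ} (hz : z ∈ star Ω) :
    ∫ t, g (act t z) * conj (chr δ t) ∂(tau n) = coef Ω g δ * mon δ z := by
  have hk : DifferentiableOn ℂ (fun w => g w * mon (-δ) w) (star Ω) := by
    apply DifferentiableOn.mul (hg.mono fun w hw => hw.1)
    intro w hw
    exact (mon_differentiableAt (-δ) fun j => Or.inl (hw.2 j)).differentiableWithinAt
  have h1 := avg_const hk (base_mem Ω) hz
  have h2 : avg (fun w => g w * mon (-δ) w) z =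
      (∫ t, g (act t z) * conj (chr δ t) ∂(tau n)) * mon (-δ) z := by
    rw [avg, ← integral_mul_const]
    congr 1
    funext t
    rw [mon_act, chr_neg]
    ring
  rw [coef, h1, h2, mul_assoc, ← mon_add _ _ hz.2, neg_add_cancel, mon_zero, mul_one]

lemma continuousOn_act {Ω : BddReinhardtDomain n} {g : (Fin n → ℂ) → ℂ}
    (hg : DifferentiableOn ℂ g Ω.carrier) {z : Fin n → ℂ} (hz : z ∈ Ω.carrier) :
    Continuous (fun t : Tn n => g (act t z)) := by
  refine hg.continuousOn.comp_continuous ?_ fun t => act_mem Ω hz t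
  exact continuous_act.comp (Continuous.prodMk continuous_id continuous_const)

lemma coef_bound {Ω : BddReinhardtDomain n} {g : (Fin n → ℂ) → ℂ}
    (hg : DifferentiableOn ℂ g Ω.carrier) (δ : Fin n → ℤ) {z : Fin n → ℂ} (hz : z ∈ star Ω) :
    ‖coef Ω g δ‖ * ‖mon δ z‖ ≤ ∫ t, ‖g (act t z)‖ ∂(tau n) := by
  rw [← norm_mul, ← coef_spec hg δ hz]
  refine (norm_integral_le_integral_norm _).trans (le_of_eq ?_)
  congr 1
  funext t
  rw [norm_mul, RCLike.norm_conj, norm_chr, mul_one]

/-- if the Laurent coefficient is not zero then the monomial is holomorphic on `Ω` -/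
theorem coef_hol {Ω : BddReinhardtDomain n} {g : (Fin n → ℂ) → ℂ}
    (hg : DifferentiableOn ℂ g Ω.carrier) {δ : Fin n → ℤ} (hc : coef Ω g δ ≠ 0)
    {z : Fin n → ℂ} (hz : z ∈ Ω.carrier) (j : Fin n) : z j ≠ 0 ∨ 0 ≤ δ j := by
  by_contra hcon
  push Not at hcon
  obtain ⟨hzj, hδ⟩ := hcon
  obtain ⟨r, hr, h1⟩ := Metric.nhds_basis_closedBall.mem_iff.1 (Ω.isOpen.mem_nhds hz)
  -- `g` is bounded on the orbit of the ball
  have hcomp : IsCompact ((fun p : Tn n × (Fin n → ℂ) => act p.1 p.2) '' (univ ×ˢ closedBall z r)) :=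
    (isCompact_univ.prod (isCompact_closedBall z r)).image continuous_act
  have hsub : ((fun p : Tn n × (Fin n → ℂ) => act p.1 p.2) '' (univ ×ˢ closedBall z r)) ⊆
      Ω.carrier := by
    rintro _ ⟨⟨t, w⟩, ⟨_, hw⟩, rfl⟩
    exact act_mem Ω (h1 hw) t
  obtain ⟨B, hB⟩ := hcomp.exists_bound_of_continuousOn (hg.continuousOn.mono hsub)
  have hB' : ∀ w ∈ closedBall z r, ∀ t : Tn n, ‖g (act t w)‖ ≤ B := fun w hw t =>
    hB _ ⟨(t, w), ⟨mem_univ _, hw⟩, rfl⟩
  have hB0 : 0 ≤ B := (norm_nonneg _).trans (hB' z (mem_closedBall_self hr.le) 0)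
  have hbd : ∀ w ∈ closedBall z r, (∀ i, w i ≠ 0) → ‖coef Ω g δ‖ * ‖mon δ w‖ ≤ B := by
    intro w hw hw0
    refine (coef_bound hg δ ⟨h1 hw, hw0⟩).trans ?_
    calc ∫ t, ‖g (act t w)‖ ∂(tau n) ≤ ∫ _t, B ∂(tau n) := by
          apply integral_mono_of_nonneg (ae_of_all _ fun t => norm_nonneg _)
            (integrable_const _) (ae_of_all _ fun t => hB' w hw t)
      _ = B := by simp
  obtain ⟨v, hv, hv0⟩ := exists_star_ball z hr
  set C : ℝ := ∏ i ∈ Finset.univ.erase j, ‖v i‖ ^ δ i with hC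
  have hCpos : 0 < C := Finset.prod_pos fun i _ => zpow_pos (norm_pos_iff.2 (hv0 i)) _
  have hkey : ∀ ε : ℝ, 0 < ε → ε ≤ r → ε ≤ 1 → ‖coef Ω g δ‖ * C ≤ B * ε := by
    intro ε hε hεr hε1
    have hw : Function.update v j (ε : ℂ) ∈ closedBall z r := by
      rw [closedBall_pi _ hr.le, mem_univ_pi]
      intro i
      by_cases h : i = j
      · subst h
        rw [Function.update_self, hzj, mem_closedBall_zero_iff, Complex.norm_real,
          Real.norm_of_nonneg hε.le]
        exact hεr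
      · rw [Function.update_of_ne h]
        rw [ball_pi _ hr, mem_univ_pi] at hv
        exact ball_subset_closedBall (hv i)
    have hw0 : ∀ i, Function.update v j (ε : ℂ) i ≠ 0 := by
      intro i
      by_cases h : i = j
      · subst h
        rw [Function.update_self]
        exact_mod_cast hε.ne'
      · rw [Function.update_of_ne h]
        exact hv0 i
    have h2 := hbd _ hw hw0
    have h3 : ‖mon δ (Function.update v j (ε : ℂ))‖ = ε ^ δ j * C := by
      rw [norm_mon, ← Finset.mul_prod_erase Finset.univ _ (Finset.mem_univ j),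
        Function.update_self, Complex.norm_real, Real.norm_of_nonneg hε.le]
      congr 1
      refine Finset.prod_congr rfl fun i hi => ?_
      rw [Function.update_of_ne (Finset.ne_of_mem_erase hi)]
    rw [h3] at h2
    have h4 : ε⁻¹ ≤ ε ^ δ j := by
      rw [← zpow_neg_one]
      exact zpow_le_zpow_right_of_le_one₀ hε hε1 (by omega)
    have h5 : ‖coef Ω g δ‖ * (ε⁻¹ * C) ≤ B := by
      refine le_trans ?_ h2
      gcongr
    calc ‖coef Ω g δ‖ * C = (‖coef Ω g δ‖ * (ε⁻¹ * C)) * ε := by field_simp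
      _ ≤ B * ε := by gcongr
  have hD : 0 < ‖coef Ω g δ‖ * C := mul_pos (norm_pos_iff.2 hc) hCpos
  set D := ‖coef Ω g δ‖ * C with hDdef
  have h6 := hkey (min (min r 1) (D / (2 * (B + 1)))) (by positivity)
    ((min_le_left _ _).trans (min_le_left _ _)) ((min_le_left _ _).trans (min_le_right _ _))
  have h7 : B * (min (min r 1) (D / (2 * (B + 1)))) ≤ B * (D / (2 * (B + 1))) := by
    gcongr
    exact min_le_right _ _
  have h8 : B * (D / (2 * (B + 1))) < D := by
    rw [mul_div_assoc', div_lt_iff₀ (by positivity)]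
    nlinarith
  linarith

end Pool.Agent.H516H
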