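import Pool.Agent.H516_Hankel.Main

set_option autoImplicit false

open MeasureTheory Set Filter Topology Metric
open scoped ENNReal NNReal ComplexConjugate InnerProductSpace

namespace Pool.Agent.H516H

section

noncomputable local instance : MeasureSpace UnitAddCircle := ⟨AddCircle.haarAddCircle⟩

lemma chr_eq_mFourier {n : ℕ} (δ : Fin n → ℤ) (t : Tn n) :
    chr δ t = UnitAddTorus.mFourier δ t := by
  unfold chr
  simp only [UnitAddTorus.mFourier, ContinuousMap.coe_mk]
  refine Finset.prod_congr rfl fun j _ => ?_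
  rw [fourier_apply, AddCircle.toCircle_zsmul, Circle.coe_zpow]

lemma const_of_coeff {n : ℕ} (F : C(UnitAddTorus (Fin n), ℂ))
    (h : ∀ δ : Fin n → ℤ, δ ≠ 0 → ∫ t, F t * conj (chr δ t) ∂(tau n) = 0) (t : Tn n) :
    F t = ∫ t, F t ∂(tau n) := by
  have hco : ∀ δ : Fin n → ℤ, UnitAddTorus.mFourierCoeff F δ =
      ∫ t, F t * conj (chr δ t) ∂(tau n) := by
    intro δ
    have h1 : UnitAddTorus.mFourierCoeff F δ =
        ∫ t, UnitAddTorus.mFourier (-δ) t • F t ∂(tau n) := rfl
    rw [h1]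
    congr 1
    funext t
    rw [← chr_eq_mFourier, chr_neg, smul_eq_mul, mul_comm]
  have h0 : ∀ δ : Fin n → ℤ, δ ≠ 0 → UnitAddTorus.mFourierCoeff F δ = 0 := by
    intro δ hδ
    rw [hco δ, h δ hδ]
  have hsum : Summable (UnitAddTorus.mFourierCoeff F) :=
    summable_of_ne_finset_zero (s := {0}) fun δ hδ => h0 δ (by simpa using hδ)
  have h2 := UnitAddTorus.hasSum_mFourier_series_apply_of_summable hsum t
  have h3 : HasSum (fun i => UnitAddTorus.mFourierCoeff F i • UnitAddTorus.mFourier i t)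
      (UnitAddTorus.mFourierCoeff F 0 • UnitAddTorus.mFourier 0 t) := by
    apply hasSum_single
    intro δ hδ
    rw [h0 δ hδ, zero_smul]
  have h4 := h2.unique h3
  rw [h4, hco 0, ← chr_eq_mFourier, chr_zero]
  simp [chr_zero]

end

variable {n : ℕ}

/-- The symbol is constant. -/
theorem f_const (hn : 2 ≤ n) {Ω : BddReinhardtDomain n} {f : (Fin n → ℂ) → ℂ}
    {T : bergman Ω →L[ℂ] L2 Ω} (hf : DifferentiableOn ℂ f Ω.carrier) (hT : HankelHS Ω f T) :
    ∃ c : ℂ, ∀ z ∈ Ω.carrier, f z = c := by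
  have hstar : ∀ z ∈ star Ω, f z = coef Ω f 0 := by
    intro z hz
    have h1 := const_of_coeff ⟨fun t => f (act t z), continuousOn_act hf hz.1⟩ (by
      intro δ hδ
      have := coef_spec hf δ hz
      rw [coef_zero hn hf hT hδ, zero_mul] at this
      exact this) 0
    have h2 : ∫ t, f (act t z) ∂(tau n) = coef Ω f 0 := by
      have := coef_spec hf 0 hz
      simpa [chr_zero, mon_zero] using this
    have h3 : f (act 0 z) = ∫ t, f (act t z) ∂(tau n) := h1
    rw [act_zero] at h3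
    rw [h3, h2]
  refine ⟨coef Ω f 0, fun z hz => ?_⟩
  have hc : ContinuousAt f z := hf.continuousOn.continuousAt (Ω.isOpen.mem_nhds hz)
  by_contra hne
  have h1 : ∀ᶠ w in 𝓝 z, f w ≠ coef Ω f 0 := hc.eventually_ne hne
  have h2 : ∀ᶠ w in 𝓝 z, w ∈ Ω.carrier := Ω.isOpen.mem_nhds hz
  obtain ⟨r, hr, h3⟩ := Metric.eventually_nhds_iff_ball.1 (h1.and h2)
  obtain ⟨w, hw, hw0⟩ := exists_star_ball z hr
  exact (h3 w hw).1 (hstar w ⟨(h3 w hw).2, hw0⟩)

/-- The Hankel operator vanishes. -/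
theorem T_zero (hn : 2 ≤ n) {Ω : BddReinhardtDomain n} {f : (Fin n → ℂ) → ℂ}
    {T : bergman Ω →L[ℂ] L2 Ω} (hf : DifferentiableOn ℂ f Ω.carrier) (hT : HankelHS Ω f T) :
    T = 0 := by
  obtain ⟨c, hc⟩ := f_const hn hf hT
  have hval : ∀ (g : bergman Ω) (hg : g ∈ hankelDomain Ω f), T g = 0 := by
    intro g hg
    rw [hT.extends_hankel g hg, hankel]
    have h1 : hg.toLp _ = (((conj c) • g : bergman Ω) : L2 Ω) := by
      apply Lp.ext
      have h2 := Lp.coeFn_smul (conj c) (g : L2 Ω)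
      have h4 : (((conj c) • g : bergman Ω) : L2 Ω) = (conj c) • (g : L2 Ω) := rfl
      rw [h4]
      filter_upwards [hg.coeFn_toLp, h2, ae_restrict_mem Ω.isOpen.measurableSet] with z h3 h5 h6
      rw [h3, h5, Pi.smul_apply, hc z h6, smul_eq_mul]
    rw [h1, (bergman Ω).starProjection_eq_self_iff.2 (Submodule.coe_mem _), sub_self]
  apply ContinuousLinearMap.ext
  intro g
  have hcl : IsClosed {g : bergman Ω | T g = 0} := isClosed_eq T.continuous continuous_const
  have h1 : hankelDomain Ω f ⊆ {g : bergman Ω | T g = 0} := fun g hg => hval g hg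
  have h2 := closure_minimal h1 hcl
  rw [hT.dense_domain.closure_eq] at h2
  exact h2 (mem_univ g)

end Pool.Agent.H516H
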