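import Mathlib
import Pool.Agent.Helper853.Bk.Bergman

set_option autoImplicit false

open MeasureTheory Set Filter Topology Metric
open scoped ENNReal NNReal ComplexConjugate

namespace Pool.Agent.H516H

/-- A bounded Reinhardt domain in `ℂ^n`: a nonempty connected open bounded set which is invariant
under `(z_1, …, z_n) ↦ (e^{i θ_1} z_1, …, e^{i θ_n} z_n)` for all real `θ_1, …, θ_n`. -/
structure BddReinhardtDomain (n : ℕ) where
  /-- the set of points -/
  carrier : Set (Fin n → ℂ)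
  isOpen : IsOpen carrier
  isConnected : IsConnected carrier
  isBounded : Bornology.IsBounded carrier
  rotate : ∀ z ∈ carrier, ∀ θ : Fin n → ℝ,
    (fun j => Complex.exp (θ j * Complex.I) * z j) ∈ carrier

variable {n : ℕ}

/-- `L²(Ω)` for Lebesgue measure -/
abbrev L2 (Ω : BddReinhardtDomain n) : Type := Lp ℂ 2 (volume.restrict Ω.carrier)

/-- an element of `L²(Ω)` is holomorphic if it is represented by a holomorphic function on `Ω` -/
def IsHol {Ω : BddReinhardtDomain n} (g : L2 Ω) : Prop :=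
  ∃ G : (Fin n → ℂ) → ℂ, DifferentiableOn ℂ G Ω.carrier ∧ g =ᵐ[volume.restrict Ω.carrier] G

lemma IsHol.add {Ω : BddReinhardtDomain n} {a b : L2 Ω} (ha : IsHol a) (hb : IsHol b) :
    IsHol (a + b) := by
  obtain ⟨G, hG, ha⟩ := ha
  obtain ⟨H, hH, hb⟩ := hb
  refine ⟨fun z => G z + H z, hG.add hH, ?_⟩
  filter_upwards [Lp.coeFn_add a b, ha, hb] with z h1 h2 h3
  rw [h1, Pi.add_apply, h2, h3]

lemma IsHol.zero (Ω : BddReinhardtDomain n) : IsHol (0 : L2 Ω) :=
  ⟨fun _ => 0, differentiableOn_const 0, by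
    filter_upwards [Lp.coeFn_zero ℂ 2 (volume.restrict Ω.carrier)] with z h1
    rw [h1, Pi.zero_apply]⟩

lemma IsHol.smul {Ω : BddReinhardtDomain n} (c : ℂ) {a : L2 Ω} (ha : IsHol a) :
    IsHol (c • a) := by
  obtain ⟨G, hG, ha⟩ := ha
  refine ⟨fun z => c * G z, hG.const_mul c, ?_⟩
  filter_upwards [Lp.coeFn_smul c a, ha] with z h1 h2
  rw [h1, Pi.smul_apply, h2, smul_eq_mul]

/-- The Bergman space `A²(Ω)`: the elements of `L²(Ω)` represented by a holomorphic function. -/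
def bergman (Ω : BddReinhardtDomain n) : Submodule ℂ (L2 Ω) where
  carrier := {g | IsHol g}
  add_mem' := IsHol.add
  zero_mem' := IsHol.zero Ω
  smul_mem' := fun c _ h => IsHol.smul c h

lemma mem_bergman {Ω : BddReinhardtDomain n} {g : L2 Ω} :
    g ∈ bergman Ω ↔ ∃ G : (Fin n → ℂ) → ℂ, DifferentiableOn ℂ G Ω.carrier ∧
      g =ᵐ[volume.restrict Ω.carrier] G := Iff.rfl

lemma norm_sq_eq {X : Type*} [MeasurableSpace X] {μ : Measure X} (g : Lp ℂ 2 μ) :
    ENNReal.ofReal (‖g‖ ^ 2) = ∫⁻ w, ENNReal.ofReal (‖g w‖ ^ 2) ∂μ := by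
  have h1 : ENNReal.ofReal ‖g‖ = eLpNorm g 2 μ := by
    rw [Lp.norm_def, ENNReal.ofReal_toReal (Lp.eLpNorm_ne_top g)]
  rw [ENNReal.ofReal_pow (norm_nonneg _), h1,
    eLpNorm_eq_lintegral_rpow_enorm_toReal (by simp) (by simp)]
  rw [← ENNReal.rpow_natCast, ← ENNReal.rpow_mul]
  simp only [ENNReal.toReal_ofNat, Nat.cast_ofNat, one_div]
  rw [inv_mul_cancel₀ (by norm_num), ENNReal.rpow_one]
  apply lintegral_congr
  intro a
  rw [ENNReal.ofReal_pow (norm_nonneg _), ofReal_norm, ← ENNReal.rpow_natCast]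
  norm_num

/-- point evaluations are bounded, locally uniformly -/
lemma eval_bound {Ω : BddReinhardtDomain n} {g : L2 Ω} {G : (Fin n → ℂ) → ℂ}
    (hG : DifferentiableOn ℂ G Ω.carrier) (hg : g =ᵐ[volume.restrict Ω.carrier] G)
    {z : Fin n → ℂ} {r : ℝ} (hz : closedBall z r ⊆ Ω.carrier) :
    ‖G z‖ ^ 2 * (volume (closedBall z r)).toReal ≤ ‖g‖ ^ 2 := by
  have h1 := Helper853.Bk.bergman_ineq hG hz
  have h2 : ∫⁻ w in closedBall z r, ENNReal.ofReal (‖G w‖ ^ 2) ≤
      ∫⁻ w in Ω.carrier, ENNReal.ofReal (‖G w‖ ^ 2) := lintegral_mono_set hz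
  have h3 : ∫⁻ w in Ω.carrier, ENNReal.ofReal (‖G w‖ ^ 2) = ENNReal.ofReal (‖g‖ ^ 2) := by
    rw [norm_sq_eq]
    apply lintegral_congr_ae
    filter_upwards [hg] with w hw
    rw [hw]
  have h5 := (h1.trans h2).trans h3.le
  rw [← ENNReal.ofReal_toReal (measure_closedBall_lt_top (x := z) (r := r)).ne,
    ← ENNReal.ofReal_mul (by positivity)] at h5
  exact (ENNReal.ofReal_le_ofReal_iff (by positivity)).1 h5

lemma cauchy_bound {Ω : BddReinhardtDomain n} {g h : L2 Ω} {G H : (Fin n → ℂ) → ℂ}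
    (hG : DifferentiableOn ℂ G Ω.carrier) (hg : g =ᵐ[volume.restrict Ω.carrier] G)
    (hH : DifferentiableOn ℂ H Ω.carrier) (hh : h =ᵐ[volume.restrict Ω.carrier] H)
    {z : Fin n → ℂ} {r : ℝ} (hz : closedBall z r ⊆ Ω.carrier) :
    ‖G z - H z‖ ^ 2 * (volume (closedBall (0 : Fin n → ℂ) r)).toReal ≤ ‖g - h‖ ^ 2 := by
  have h1 : (g - h : L2 Ω) =ᵐ[volume.restrict Ω.carrier] fun z => G z - H z := by
    filter_upwards [Lp.coeFn_sub g h, hg, hh] with z h1 h2 h3
    rw [h1, Pi.sub_apply, h2, h3]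
  have h2 := eval_bound (hG.sub hH) h1 hz
  rwa [Measure.addHaar_closedBall_center] at h2

/-- The Bergman space is closed. -/
theorem isClosed_bergman (Ω : BddReinhardtDomain n) : IsClosed (bergman Ω : Set (L2 Ω)) := by
  apply IsSeqClosed.isClosed
  intro g g0 hg hlim
  choose G hG hgG using hg
  have hV : ∀ r : ℝ, 0 < r → 0 < (volume (closedBall (0 : Fin n → ℂ) r)).toReal := by
    intro r hr
    apply ENNReal.toReal_pos
    · exact (measure_closedBall_pos _ _ hr).ne'
    · exact measure_closedBall_lt_top.ne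
  have hball : ∀ z ∈ Ω.carrier, ∃ r : ℝ, 0 < r ∧ ∀ w ∈ ball z r, closedBall w r ⊆ Ω.carrier := by
    intro z hz
    obtain ⟨r, hr, hr2⟩ := Metric.isOpen_iff.1 Ω.isOpen z hz
    refine ⟨r / 2, by positivity, fun w hw v hv => hr2 ?_⟩
    rw [mem_ball] at hw ⊢
    rw [mem_closedBall] at hv
    calc dist v z ≤ dist v w + dist w z := dist_triangle _ _ _
      _ < r := by linarith
  have hcs : CauchySeq g := hlim.cauchySeq
  have hpt : ∀ z ∈ Ω.carrier, ∃ y, Tendsto (fun k => G k z) atTop (𝓝 y) := by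
    intro z hz
    obtain ⟨r, hr, hr2⟩ := hball z hz
    apply cauchySeq_tendsto_of_complete
    rw [Metric.cauchySeq_iff] at hcs ⊢
    intro ε hε
    obtain ⟨N, hN⟩ := hcs (ε * Real.sqrt (volume (closedBall (0 : Fin n → ℂ) r)).toReal)
      (mul_pos hε (Real.sqrt_pos.2 (hV r hr)))
    refine ⟨N, fun a ha b hb => ?_⟩
    have h1 := hN a ha b hb
    have h2 := cauchy_bound (hG a) (hgG a) (hG b) (hgG b) (hr2 z (mem_ball_self hr))
    rw [dist_eq_norm] at h1 ⊢
    have h3 : ‖g a - g b‖ ^ 2 < (ε * Real.sqrt (volume (closedBall (0 : Fin n → ℂ) r)).toReal) ^ 2 :=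
      pow_lt_pow_left₀ h1 (norm_nonneg _) two_ne_zero
    rw [mul_pow, Real.sq_sqrt (hV r hr).le] at h3
    have h4 : ‖G a z - G b z‖ ^ 2 < ε ^ 2 := lt_of_mul_lt_mul_right (h2.trans_lt h3) (hV r hr).le
    exact lt_of_pow_lt_pow_left₀ 2 hε.le h4
  classical
  set F : (Fin n → ℂ) → ℂ := fun z => if h : z ∈ Ω.carrier then (hpt z h).choose else 0 with hF
  have hFlim : ∀ z ∈ Ω.carrier, Tendsto (fun k => G k z) atTop (𝓝 (F z)) := by
    intro z hz
    have := (hpt z hz).choose_spec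
    simp only [hF, hz, dif_pos]
    exact this
  refine ⟨F, ?_, ?_⟩
  · intro z hz
    apply DifferentiableAt.differentiableWithinAt
    obtain ⟨r, hr, hr2⟩ := hball z hz
    obtain ⟨B, hB⟩ := hlim.norm.bddAbove_range
    have hB' : ∀ k, ‖g k‖ ≤ B := fun k => hB ⟨k, rfl⟩
    have hB0 : 0 ≤ B := (norm_nonneg _).trans (hB' 0)
    set V := (volume (closedBall (0 : Fin n → ℂ) r)).toReal with hVdef
    have hVp : 0 < V := hV r hr
    refine Helper853.Bk.differentiableAt_of_tendsto (G := G) (M := B / Real.sqrt V) hr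
      (Eventually.of_forall fun k => ⟨(hG k).mono ?_, fun w hw => ?_⟩) (fun w hw => hFlim w ?_)
    · exact fun w hw => hr2 w hw (mem_closedBall_self hr.le)
    · have h1 := eval_bound (hG k) (hgG k) (hr2 w hw)
      rw [Measure.addHaar_closedBall_center, ← hVdef] at h1
      rw [le_div_iff₀ (Real.sqrt_pos.2 hVp)]
      apply le_of_sq_le_sq _ hB0
      rw [mul_pow, Real.sq_sqrt hVp.le]
      exact h1.trans (pow_le_pow_left₀ (norm_nonneg _) (hB' k) 2)
    · exact hr2 w hw (mem_closedBall_self hr.le)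
  · have h1 := tendstoInMeasure_of_tendsto_Lp hlim
    obtain ⟨ns, hns, h2⟩ := h1.exists_seq_tendsto_ae
    have h3 : ∀ᵐ z ∂(volume.restrict Ω.carrier), ∀ k, g k z = G k z := ae_all_iff.2 hgG
    filter_upwards [h2, h3, ae_restrict_mem Ω.isOpen.measurableSet] with z h4 h5 h6
    have h7 : Tendsto (fun k => g (ns k) z) atTop (𝓝 (F z)) := by
      simp_rw [h5]
      exact (hFlim z h6).comp hns.tendsto_atTop
    exact tendsto_nhds_unique h4 h7

lemma completeSpace_bergman (Ω : BddReinhardtDomain n) : CompleteSpace (bergman Ω) :=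
  (isClosed_bergman Ω).completeSpace_coe

instance (Ω : BddReinhardtDomain n) : CompleteSpace (bergman Ω) := completeSpace_bergman Ω

/-- The domain of the Hankel operator with symbol `conj f`: the functions `g ∈ A²(Ω)` such that
`conj f * g` is square integrable. -/
def hankelDomain (Ω : BddReinhardtDomain n) (f : (Fin n → ℂ) → ℂ) : Set (bergman Ω) :=
  {g | MemLp (fun z => conj (f z) * (g : L2 Ω) z) 2 (volume.restrict Ω.carrier)}

/-- The value `(I - P) (conj f * g)` of the Hankel operator at an element of its domain; `P` is the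
Bergman projection. -/
noncomputable def hankel (Ω : BddReinhardtDomain n) (f : (Fin n → ℂ) → ℂ) (g : bergman Ω)
    (hg : g ∈ hankelDomain Ω f) : L2 Ω :=
  hg.toLp _ - (bergman Ω).starProjection (hg.toLp _)

/-- `T : A²(Ω) → L²(Ω)` is a Hilbert-Schmidt operator. -/
def IsHilbertSchmidt {Ω : BddReinhardtDomain n} (T : bergman Ω →L[ℂ] L2 Ω) : Prop :=
  ∃ (ι : Type) (b : HilbertBasis ι ℂ (bergman Ω)), Summable fun i => ‖T (b i)‖ ^ 2

/-- The Hankel operator with symbol `conj f` is Hilbert-Schmidt, with Hilbert-Schmidt extension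
`T` to all of `A²(Ω)`. -/
structure HankelHS (Ω : BddReinhardtDomain n) (f : (Fin n → ℂ) → ℂ)
    (T : bergman Ω →L[ℂ] L2 Ω) : Prop where
  dense_domain : Dense (hankelDomain Ω f)
  extends_hankel : ∀ (g : bergman Ω) (hg : g ∈ hankelDomain Ω f), T g = hankel Ω f g hg
  hilbertSchmidt : IsHilbertSchmidt T

end Pool.Agent.H516H
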