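import Pool.Agent.H516_Hankel.Coef

set_option autoImplicit false

open MeasureTheory Set Filter Topology Metric
open scoped ENNReal NNReal ComplexConjugate

namespace Pool.Agent.H516H

variable {n : ℕ}

lemma measurable_mon (δ : Fin n → ℤ) : Measurable (mon δ) := by
  unfold mon
  refine Finset.measurable_prod _ fun j _ => ?_
  have h1 : Measurable (fun z : Fin n → ℂ => z j) := measurable_pi_apply j
  rcases hδ : δ j with k | k
  · simp only [Int.ofNat_eq_natCast, zpow_natCast]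
    exact h1.pow_const k
  · simp only [zpow_negSucc]
    exact (h1.pow_const (k + 1)).inv

/-- the square of the norm of the monomial -/
noncomputable def NN (Ω : BddReinhardtDomain n) (δ : Fin n → ℤ) : ℝ≥0∞ :=
  ∫⁻ z, ENNReal.ofReal (‖mon δ z‖ ^ 2) ∂(mu Ω)

/-- the monomial is in the Bergman space -/
def Good (Ω : BddReinhardtDomain n) (δ : Fin n → ℤ) : Prop :=
  (∀ z ∈ Ω.carrier, ∀ j, z j ≠ 0 ∨ 0 ≤ δ j) ∧ NN Ω δ < ∞

lemma memLp_mon {Ω : BddReinhardtDomain n} {δ : Fin n → ℤ} (h : NN Ω δ < ∞) :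
    MemLp (mon δ) 2 (mu Ω) := by
  refine ⟨(measurable_mon δ).aestronglyMeasurable, ?_⟩
  rw [eLpNorm_lt_top_iff_lintegral_rpow_enorm_lt_top (by simp) (by simp)]
  refine lt_of_le_of_lt (le_of_eq ?_) h
  apply lintegral_congr
  intro z
  rw [ENNReal.ofReal_pow (norm_nonneg _), ofReal_norm, ← ENNReal.rpow_natCast]
  norm_num

lemma Good.diff {Ω : BddReinhardtDomain n} {δ : Fin n → ℤ} (h : Good Ω δ) :
    DifferentiableOn ℂ (mon δ) Ω.carrier := fun z hz =>
  (mon_differentiableAt δ (h.1 z hz)).differentiableWithinAt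

/-- the monomial as an element of the Bergman space -/
noncomputable def monL (Ω : BddReinhardtDomain n) {δ : Fin n → ℤ} (h : Good Ω δ) : bergman Ω :=
  ⟨(memLp_mon h.2).toLp _, ⟨mon δ, h.diff, (memLp_mon h.2).coeFn_toLp⟩⟩

lemma monL_coe {Ω : BddReinhardtDomain n} {δ : Fin n → ℤ} (h : Good Ω δ) :
    ((monL Ω h : bergman Ω) : L2 Ω) =ᵐ[mu Ω] mon δ := (memLp_mon h.2).coeFn_toLp

lemma norm_monL {Ω : BddReinhardtDomain n} {δ : Fin n → ℤ} (h : Good Ω δ) :
    ENNReal.ofReal (‖monL Ω h‖ ^ 2) = NN Ω δ := by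
  have h1 : ‖monL Ω h‖ = ‖((monL Ω h : bergman Ω) : L2 Ω)‖ := rfl
  rw [h1, norm_sq_eq, NN]
  apply lintegral_congr_ae
  filter_upwards [monL_coe h] with z hz
  rw [hz]

lemma NN_pos (Ω : BddReinhardtDomain n) (δ : Fin n → ℤ) : 0 < NN Ω δ := by
  rw [NN, pos_iff_ne_zero, Ne, lintegral_eq_zero_iff]
  · intro h
    have h1 : ∀ᵐ z ∂(mu Ω), False := by
      filter_upwards [h, ae_star Ω] with z h1 h2
      simp only [Pi.zero_apply, ENNReal.ofReal_eq_zero] at h1
      have h3 := norm_pos_iff.2 (mon_ne δ h2.2)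
      have : 0 < ‖mon δ z‖ ^ 2 := by positivity
      linarith
    rw [ae_iff] at h1
    simp only [not_false_eq_true, Set.ofPred_true] at h1
    rw [Measure.restrict_apply_univ] at h1
    exact (Ω.isOpen.measure_pos volume Ω.isConnected.nonempty).ne' h1
  · exact ((measurable_mon δ).norm.pow_const 2).ennreal_ofReal

/-- Laurent coefficients of elements of the Bergman space live on good exponents -/
theorem good_of_coef {Ω : BddReinhardtDomain n} {G : (Fin n → ℂ) → ℂ}
    (hG : DifferentiableOn ℂ G Ω.carrier) (hG2 : MemLp G 2 (mu Ω)) {δ : Fin n → ℤ}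
    (hc : coef Ω G δ ≠ 0) : Good Ω δ := by
  refine ⟨fun z hz j => coef_hol hG hc hz j, ?_⟩
  have h1 : ∫⁻ z, ENNReal.ofReal (‖coef Ω G δ‖ ^ 2) * ENNReal.ofReal (‖mon δ z‖ ^ 2) ∂(mu Ω) ≤
      ∫⁻ z, ∫⁻ t, ENNReal.ofReal (‖G (act t z)‖ ^ 2) ∂(tau n) ∂(mu Ω) := by
    apply lintegral_mono_ae
    filter_upwards [ae_star Ω] with z hz
    have h2 := coef_bound hG δ hz
    have hcont := continuousOn_act hG hz.1
    have hi2 : Integrable (fun t => ‖G (act t z)‖ ^ 2) (tau n) :=
      (hcont.norm.pow 2).integrable_of_hasCompactSupport (HasCompactSupport.of_compactSpace _)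
    have h3 : (∫ t, ‖G (act t z)‖ ∂(tau n)) ^ 2 ≤ ∫ t, ‖G (act t z)‖ ^ 2 ∂(tau n) := by
      have hi1 : Integrable (fun t => ‖G (act t z)‖) (tau n) :=
        hcont.norm.integrable_of_hasCompactSupport (HasCompactSupport.of_compactSpace _)
      set m := ∫ t, ‖G (act t z)‖ ∂(tau n) with hm
      have h4 : 0 ≤ ∫ t, (‖G (act t z)‖ - m) ^ 2 ∂(tau n) :=
        integral_nonneg fun t => sq_nonneg _
      have h5 : ∫ t, (‖G (act t z)‖ - m) ^ 2 ∂(tau n) =
          (∫ t, ‖G (act t z)‖ ^ 2 ∂(tau n)) - m ^ 2 := by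
        have e1 : ∀ t, (‖G (act t z)‖ - m) ^ 2 =
            (‖G (act t z)‖ ^ 2 - (2 * m) * ‖G (act t z)‖) + m ^ 2 := fun t => by ring
        simp_rw [e1]
        have hA : Integrable (fun t => ‖G (act t z)‖ ^ 2 - (2 * m) * ‖G (act t z)‖) (tau n) :=
          hi2.sub (hi1.const_mul _)
        rw [integral_add hA (integrable_const _),
          integral_sub hi2 (hi1.const_mul _), integral_const_mul, ← hm]
        simp
        ring
      linarith
    rw [← ENNReal.ofReal_mul (by positivity), ← mul_pow]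
    rw [← ofReal_integral_eq_lintegral_ofReal hi2 (ae_of_all _ fun t => sq_nonneg _)]
    apply ENNReal.ofReal_le_ofReal
    exact (pow_le_pow_left₀ (by positivity) h2 2).trans h3
  have hmeas : AEMeasurable (fun z => ENNReal.ofReal (‖G z‖ ^ 2)) (mu Ω) :=
    (hG2.aestronglyMeasurable.norm.aemeasurable.pow_const 2).ennreal_ofReal
  rw [← lint_avg hmeas, lintegral_const_mul _
    (((measurable_mon δ).norm.pow_const 2).ennreal_ofReal)] at h1
  have h2 : ∫⁻ z, ENNReal.ofReal (‖G z‖ ^ 2) ∂(mu Ω) < ∞ := by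
    have h3 := (eLpNorm_lt_top_iff_lintegral_rpow_enorm_lt_top (by simp) (by simp)).1 hG2.2
    refine lt_of_le_of_lt (le_of_eq ?_) h3
    apply lintegral_congr
    intro z
    rw [ENNReal.ofReal_pow (norm_nonneg _), ofReal_norm, ← ENNReal.rpow_natCast]
    norm_num
  have h3 := h1.trans_lt h2
  have h4 : ENNReal.ofReal (‖coef Ω G δ‖ ^ 2) ≠ 0 := by
    have : 0 < ‖coef Ω G δ‖ := norm_pos_iff.2 hc
    rw [Ne, ENNReal.ofReal_eq_zero, not_le]
    positivity
  by_contra hcon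
  have h5 : NN Ω δ = ∞ := by
    rw [not_lt, top_le_iff] at hcon; exact hcon
  unfold NN at h5
  rw [h5, ENNReal.mul_top h4] at h3
  exact lt_irrefl _ h3

end Pool.Agent.H516H
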