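import Pool.Agent.H516_Hankel.Pair

set_option autoImplicit false

open MeasureTheory Set Filter Topology Metric
open scoped ENNReal NNReal ComplexConjugate InnerProductSpace

namespace Pool.Agent.H516H

variable {n : ℕ} {Ω : BddReinhardtDomain n} {f : (Fin n → ℂ) → ℂ} {α δ : Fin n → ℤ}
  {K : Set (Fin n → ℂ)} {B : ℝ}

lemma inner_toLp {u v : (Fin n → ℂ) → ℂ} (hu : MemLp u 2 (mu Ω)) {g : L2 Ω}
    (hg : g =ᵐ[mu Ω] v) : ⟪hu.toLp _, g⟫_ℂ = ∫ z, conj (u z) * v z ∂(mu Ω) := by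
  rw [L2.inner_def]
  apply integral_congr_ae
  filter_upwards [hu.coeFn_toLp, hg] with z h1 h2
  rw [h1, h2, RCLike.inner_apply, mul_comm]

lemma integrable_mul' {u v : (Fin n → ℂ) → ℂ} (hu : MemLp u 2 (mu Ω)) (hv : MemLp v 2 (mu Ω)) :
    Integrable (fun z => conj (u z) * v z) (mu Ω) := by
  refine (L2.integrable_inner (𝕜 := ℂ) (hu.toLp _) (hv.toLp _)).congr ?_
  filter_upwards [hu.coeFn_toLp, hv.coeFn_toLp] with z h1 h2
  rw [h1, h2, RCLike.inner_apply, mul_comm]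

lemma memLp_of_ae {g : L2 Ω} {v : (Fin n → ℂ) → ℂ} (hg : g =ᵐ[mu Ω] v) : MemLp v 2 (mu Ω) :=
  (memLp_congr_ae hg).1 (Lp.memLp g)

lemma perp (hK : Adm Ω f α δ K B) (hB : 0 ≤ B) {c : ℝ}
    (hc : (∀ G : (Fin n → ℂ) → ℂ, DifferentiableOn ℂ G Ω.carrier → MemLp G 2 (mu Ω) →
      coef Ω G δ = 0) ∨ MM Ω K (δ + α) = c * MM Ω K δ) (g : bergman Ω) :
    ⟪(memLp_psi hK hB c).toLp _, (g : L2 Ω)⟫_ℂ = 0 := by
  obtain ⟨G, hG, hgG⟩ := g.2
  have hG2 : MemLp G 2 (mu Ω) := memLp_of_ae hgG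
  rw [inner_toLp (memLp_psi hK hB c) hgG, int_avg (integrable_mul' (memLp_psi hK hB c) hG2)]
  have h1 : ∫ z, ∫ t, conj (psi K α δ c (act t z)) * G (act t z) ∂(tau n) ∂(mu Ω) =
      ∫ z, coef Ω G δ * (conj (psi K α δ c z) * mon δ z) ∂(mu Ω) := by
    apply integral_congr_ae
    filter_upwards [ae_star Ω] with z hz
    have h2 : ∀ t : Tn n, conj (psi K α δ c (act t z)) * G (act t z) =
        conj (psi K α δ c z) * (G (act t z) * conj (chr δ t)) := by
      intro t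
      rw [psi_act hK, map_mul]
      ring
    simp_rw [h2]
    rw [integral_const_mul, coef_spec hG δ hz]
    ring
  rw [h1, integral_const_mul, pair1 hK]
  rcases hc with hc | hc
  · rw [hc G hG hG2, zero_mul]
  · rw [hc, sub_self]
    simp

lemma memLp_fpsi (hf : DifferentiableOn ℂ f Ω.carrier) (hK : Adm Ω f α δ K B) (hB : 0 ≤ B)
    (c : ℝ) : MemLp (fun z => f z * psi K α δ c z) 2 (mu Ω) := by
  refine MemLp.of_bound ?_ (B * ((B ^ 2 + |c|) * B)) (ae_of_all _ fun z => ?_)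
  · exact (hf.continuousOn.aestronglyMeasurable Ω.isOpen.measurableSet).mul
      (measurable_psi hK c).aestronglyMeasurable
  · rw [norm_mul]
    by_cases h : z ∈ K
    · have h1 := hK.bf z h
      have h2 := psi_bound hK hB c z
      gcongr
    · have : psi K α δ c z = 0 := by
        unfold psi
        rw [if_neg h]
      rw [this, norm_zero, mul_zero]
      positivity

lemma T_pair {T : bergman Ω →L[ℂ] L2 Ω} (hf : DifferentiableOn ℂ f Ω.carrier)
    (hT : HankelHS Ω f T) (hK : Adm Ω f α δ K B) (hB : 0 ≤ B) {c : ℝ}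
    (hc : (∀ G : (Fin n → ℂ) → ℂ, DifferentiableOn ℂ G Ω.carrier → MemLp G 2 (mu Ω) →
      coef Ω G δ = 0) ∨ MM Ω K (δ + α) = c * MM Ω K δ) (g : bergman Ω) :
    ⟪(memLp_psi hK hB c).toLp _, T g⟫_ℂ = ⟪(memLp_fpsi hf hK hB c).toLp _, (g : L2 Ω)⟫_ℂ := by
  have hclosed : IsClosed {g : bergman Ω | ⟪(memLp_psi hK hB c).toLp _, T g⟫_ℂ =
      ⟪(memLp_fpsi hf hK hB c).toLp _, (g : L2 Ω)⟫_ℂ} := by
    apply isClosed_eq
    · exact continuous_const.inner T.continuous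
    · exact continuous_const.inner continuous_subtype_val
  have hsub : hankelDomain Ω f ⊆ {g : bergman Ω | ⟪(memLp_psi hK hB c).toLp _, T g⟫_ℂ =
      ⟪(memLp_fpsi hf hK hB c).toLp _, (g : L2 Ω)⟫_ℂ} := by
    intro g hg
    show ⟪(memLp_psi hK hB c).toLp _, T g⟫_ℂ = ⟪(memLp_fpsi hf hK hB c).toLp _, (g : L2 Ω)⟫_ℂ
    rw [hT.extends_hankel g hg, hankel, inner_sub_right]
    have h1 : ⟪(memLp_psi hK hB c).toLp _, (bergman Ω).starProjection (MemLp.toLp _ hg)⟫_ℂ = 0 :=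
      perp hK hB hc ⟨_, Submodule.starProjection_apply_mem _ _⟩
    rw [h1, sub_zero, inner_toLp (memLp_psi hK hB c) hg.coeFn_toLp,
      inner_toLp (memLp_fpsi hf hK hB c) (EventuallyEq.refl _ ((g : L2 Ω) : (Fin n → ℂ) → ℂ))]
    congr 1
    funext z
    rw [map_mul]
    ring
  have h2 := hT.dense_domain.closure_eq
  have h3 := closure_minimal hsub hclosed
  rw [h2] at h3
  exact h3 (mem_univ g)

lemma pair_mon (hf : DifferentiableOn ℂ f Ω.carrier) (hK : Adm Ω f α δ K B) (hB : 0 ≤ B) (c : ℝ)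
    (hγ : Good Ω (δ + α)) :
    ⟪(memLp_fpsi hf hK hB c).toLp _, ((monL Ω hγ : bergman Ω) : L2 Ω)⟫_ℂ =
      conj (coef Ω f α) * ((MM Ω K (δ + α + α) - c * MM Ω K (δ + α) : ℝ) : ℂ) := by
  rw [inner_toLp (memLp_fpsi hf hK hB c) (monL_coe hγ),
    int_avg (integrable_mul' (memLp_fpsi hf hK hB c) (memLp_mon hγ.2)), ← pair2 hK,
    ← integral_const_mul]
  apply integral_congr_ae
  filter_upwards [ae_star Ω] with z hz
  have h2 : ∀ t : Tn n, conj (f (act t z) * psi K α δ c (act t z)) * mon (δ + α) (act t z) =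
      (conj (psi K α δ c z) * mon (δ + α) z) * conj (f (act t z) * conj (chr α t)) := by
    intro t
    have h3 : conj (chr δ t) * chr δ t = 1 := by
      rw [conj_mul_self', norm_chr]; simp
    rw [psi_act hK, mon_act, chr_add, map_mul, map_mul, map_mul, Complex.conj_conj]
    calc conj (f (act t z)) * (conj (chr δ t) * conj (psi K α δ c z)) *
          (chr δ t * chr α t * mon (δ + α) z) =
          (conj (chr δ t) * chr δ t) * ((conj (psi K α δ c z) * mon (δ + α) z) *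
            (conj (f (act t z)) * chr α t)) := by ring
      _ = _ := by rw [h3, one_mul]
  simp_rw [h2]
  rw [integral_const_mul, integral_conj, coef_spec hf α hz, map_mul]
  ring

/-- **The key inequality.** -/
theorem key {T : bergman Ω →L[ℂ] L2 Ω} (hf : DifferentiableOn ℂ f Ω.carrier)
    (hT : HankelHS Ω f T) (hK : Adm Ω f α δ K B) (hB : 0 ≤ B) {c : ℝ}
    (hc : (∀ G : (Fin n → ℂ) → ℂ, DifferentiableOn ℂ G Ω.carrier → MemLp G 2 (mu Ω) →
      coef Ω G δ = 0) ∨ MM Ω K (δ + α) = c * MM Ω K δ) (hγ : Good Ω (δ + α)) :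
    ‖coef Ω f α‖ ^ 2 * (MM Ω K (δ + α + α) - c * MM Ω K (δ + α)) ^ 2 ≤
      (MM Ω K (δ + α + α) - 2 * c * MM Ω K (δ + α) + c ^ 2 * MM Ω K δ) *
        ‖T (monL Ω hγ)‖ ^ 2 := by
  have h1 := T_pair hf hT hK hB hc (monL Ω hγ)
  rw [pair_mon hf hK hB c hγ] at h1
  have h2 := norm_inner_le_norm (𝕜 := ℂ) ((memLp_psi hK hB c).toLp _) (T (monL Ω hγ))
  rw [h1, norm_mul, RCLike.norm_conj, Complex.norm_real, Real.norm_eq_abs] at h2
  have h3 := pow_le_pow_left₀ (by positivity) h2 2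
  rw [mul_pow, mul_pow, sq_abs, norm_psi hK hB c] at h3
  exact h3

end Pool.Agent.H516H
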