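import Pool.Agent.H516_Hankel.Key2

set_option autoImplicit false

open MeasureTheory Set Filter Topology Metric
open scoped ENNReal NNReal ComplexConjugate InnerProductSpace

namespace Pool.Agent.H516H

variable {n : ℕ}

/-- first half of the exhaustion -/
def Kf (Ω : BddReinhardtDomain n) (f : (Fin n → ℂ) → ℂ) (i : ℕ) : Set (Fin n → ℂ) :=
  {z | z ∈ star Ω ∧ ∀ t : Tn n, ‖f (act t z)‖ ≤ i}

/-- the exhaustion -/
def Ks (Ω : BddReinhardtDomain n) (f : (Fin n → ℂ) → ℂ) (α δ : Fin n → ℤ) (i : ℕ) :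
    Set (Fin n → ℂ) :=
  Kf Ω f i ∩ ({z | ‖mon α z‖ ≤ i} ∩ {z | ‖mon δ z‖ ≤ i})

lemma continuous_act_right (t : Tn n) : Continuous (act t) :=
  continuous_act.comp (Continuous.prodMk continuous_const continuous_id)

lemma measurableSet_Kf {Ω : BddReinhardtDomain n} {f : (Fin n → ℂ) → ℂ}
    (hf : DifferentiableOn ℂ f Ω.carrier) (i : ℕ) : MeasurableSet (Kf Ω f i) := by
  have h1 : Kf Ω f i = star Ω ∩ closure (Kf Ω f i) := by
    apply subset_antisymm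
    · exact fun z hz => ⟨hz.1, subset_closure hz⟩
    · rintro z ⟨hz, hcl⟩
      refine ⟨hz, fun t => ?_⟩
      by_contra hcon
      push Not at hcon
      have h2 : ContinuousAt (fun w => ‖f (act t w)‖) z := by
        have h3 : ContinuousAt f (act t z) :=
          (hf.continuousOn).continuousAt (Ω.isOpen.mem_nhds (act_mem Ω hz.1 t))
        exact (h3.comp (f := act t) (continuous_act_right t).continuousAt).norm
      have h4 : ∀ᶠ w in 𝓝 z, (i : ℝ) < ‖f (act t w)‖ := h2.eventually_const_lt hcon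
      obtain ⟨w, hw1, hw2⟩ := (mem_closure_iff_nhds.1 hcl) _ h4
      have h5 := hw2.2 t
      have h6 : (i : ℝ) < ‖f (act t w)‖ := hw1
      linarith
  rw [h1]
  exact (isOpen_star Ω).measurableSet.inter isClosed_closure.measurableSet

lemma adm_Ks {Ω : BddReinhardtDomain n} {f : (Fin n → ℂ) → ℂ}
    (hf : DifferentiableOn ℂ f Ω.carrier) (α δ : Fin n → ℤ) (i : ℕ) :
    Adm Ω f α δ (Ks Ω f α δ i) i where
  meas := (measurableSet_Kf hf i).inter
    ((measurableSet_le (measurable_mon α).norm measurable_const).inter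
      (measurableSet_le (measurable_mon δ).norm measurable_const))
  sub := fun z hz => hz.1.1
  inv := by
    have h1 : ∀ (t : Tn n) (z : Fin n → ℂ), z ∈ Ks Ω f α δ i → act t z ∈ Ks Ω f α δ i := by
      rintro t z ⟨⟨h1, h2⟩, h3, h4⟩
      refine ⟨⟨act_mem_star Ω h1 t, fun s => ?_⟩, ?_, ?_⟩
      · rw [← act_add]
        exact h2 _
      · show ‖mon α (act t z)‖ ≤ i
        rw [norm_mon_act]
        exact h3
      · show ‖mon δ (act t z)‖ ≤ i
        rw [norm_mon_act]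
        exact h4
    intro t z
    refine ⟨fun h => ?_, h1 t z⟩
    have h2 := h1 (-t) _ h
    rwa [← act_add, neg_add_cancel, act_zero] at h2
  bf := by
    rintro z ⟨⟨_, h2⟩, _⟩
    have := h2 0
    rwa [act_zero] at this
  bα := fun z hz => hz.2.1
  bδ := fun z hz => hz.2.2

lemma Ks_mono (Ω : BddReinhardtDomain n) (f : (Fin n → ℂ) → ℂ) (α δ : Fin n → ℤ) :
    Monotone (Ks Ω f α δ) := by
  intro i j hij z hz
  have h : (i : ℝ) ≤ j := by exact_mod_cast hij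
  exact ⟨⟨hz.1.1, fun t => (hz.1.2 t).trans h⟩, le_trans hz.2.1 h, le_trans hz.2.2 h⟩

lemma Ks_exhaust {Ω : BddReinhardtDomain n} {f : (Fin n → ℂ) → ℂ}
    (hf : DifferentiableOn ℂ f Ω.carrier) (α δ : Fin n → ℤ) {z : Fin n → ℂ} (hz : z ∈ star Ω) :
    ∃ i, z ∈ Ks Ω f α δ i := by
  have hc := (continuousOn_act hf hz.1).norm
  obtain ⟨B, hB⟩ := (isCompact_univ (X := Tn n)).exists_bound_of_continuousOn hc.continuousOn
  obtain ⟨i, hi⟩ := exists_nat_ge (max B (max ‖mon α z‖ ‖mon δ z‖))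
  refine ⟨i, ⟨hz, fun t => ?_⟩, ?_, ?_⟩
  · have := hB t (mem_univ t)
    rw [norm_norm] at this
    exact this.trans ((le_max_left _ _).trans hi)
  · exact (le_max_left _ _).trans ((le_max_right _ _).trans hi)
  · exact (le_max_right _ _).trans ((le_max_right _ _).trans hi)

lemma tendsto_lint {Ω : BddReinhardtDomain n} {f : (Fin n → ℂ) → ℂ}
    (hf : DifferentiableOn ℂ f Ω.carrier) (α δ : Fin n → ℤ) {F : (Fin n → ℂ) → ℝ≥0∞}
    (hF : Measurable F) :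
    Tendsto (fun i => ∫⁻ z in Ks Ω f α δ i, F z ∂(mu Ω)) atTop (𝓝 (∫⁻ z, F z ∂(mu Ω))) := by
  have h1 : ∀ i, ∫⁻ z in Ks Ω f α δ i, F z ∂(mu Ω) =
      ∫⁻ z, (Ks Ω f α δ i).indicator F z ∂(mu Ω) := fun i =>
    (lintegral_indicator (adm_Ks hf α δ i).meas _).symm
  simp_rw [h1]
  apply lintegral_tendsto_of_tendsto_of_monotone
  · exact fun i => (hF.indicator (adm_Ks hf α δ i).meas).aemeasurable
  · refine ae_of_all _ fun z i j hij => ?_
    exact indicator_le_indicator_of_subset (Ks_mono Ω f α δ hij) (fun _ => zero_le) z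
  · filter_upwards [ae_star Ω] with z hz
    obtain ⟨i, hi⟩ := Ks_exhaust hf α δ hz
    apply tendsto_const_nhds.congr'
    filter_upwards [eventually_ge_atTop i] with j hj
    rw [indicator_of_mem (Ks_mono Ω f α δ hj hi)]

lemma tendsto_MM {Ω : BddReinhardtDomain n} {f : (Fin n → ℂ) → ℂ}
    (hf : DifferentiableOn ℂ f Ω.carrier) (α δ β : Fin n → ℤ)
    (hβ : ∀ i, IntegrableOn (fun z => ‖mon β z‖ ^ 2) (Ks Ω f α δ i) (mu Ω)) :
    Tendsto (fun i => ENNReal.ofReal (MM Ω (Ks Ω f α δ i) β)) atTop (𝓝 (NN Ω β)) := by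
  have h1 : ∀ i, ENNReal.ofReal (MM Ω (Ks Ω f α δ i) β) =
      ∫⁻ z in Ks Ω f α δ i, ENNReal.ofReal (‖mon β z‖ ^ 2) ∂(mu Ω) := by
    intro i
    rw [MM, ofReal_integral_eq_lintegral_ofReal (hβ i) (ae_of_all _ fun z => sq_nonneg _)]
  simp_rw [h1]
  exact tendsto_lint hf α δ ((measurable_mon β).norm.pow_const 2).ennreal_ofReal

/-- the real number `N(δ)` -/
noncomputable def nn (Ω : BddReinhardtDomain n) (δ : Fin n → ℤ) : ℝ := (NN Ω δ).toReal

lemma nn_pos {Ω : BddReinhardtDomain n} {δ : Fin n → ℤ} (h : NN Ω δ < ∞) : 0 < nn Ω δ :=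
  ENNReal.toReal_pos (NN_pos Ω δ).ne' h.ne

lemma ofReal_nn {Ω : BddReinhardtDomain n} {δ : Fin n → ℤ} (h : NN Ω δ < ∞) :
    ENNReal.ofReal (nn Ω δ) = NN Ω δ := ENNReal.ofReal_toReal h.ne

lemma MM_nonneg (Ω : BddReinhardtDomain n) (K : Set (Fin n → ℂ)) (β : Fin n → ℤ) :
    0 ≤ MM Ω K β := by
  unfold MM
  exact integral_nonneg fun z => sq_nonneg _

/-- case A -/
lemma stepA {Ω : BddReinhardtDomain n} {f : (Fin n → ℂ) → ℂ} {T : bergman Ω →L[ℂ] L2 Ω}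
    (hf : DifferentiableOn ℂ f Ω.carrier) (hT : HankelHS Ω f T) {α δ : Fin n → ℤ}
    (hα : coef Ω f α ≠ 0) (hγ : Good Ω (δ + α)) (hδ : ¬ Good Ω δ) :
    NN Ω (δ + α + α) ≤ ENNReal.ofReal (‖T (monL Ω hγ)‖ ^ 2 / ‖coef Ω f α‖ ^ 2) := by
  have hc : ∀ G : (Fin n → ℂ) → ℂ, DifferentiableOn ℂ G Ω.carrier → MemLp G 2 (mu Ω) →
      coef Ω G δ = 0 := by
    intro G hG hG2
    by_contra hcon
    exact hδ (good_of_coef hG hG2 hcon)
  have hp : 0 < ‖coef Ω f α‖ ^ 2 := by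
    have := norm_pos_iff.2 hα
    positivity
  refine le_of_tendsto' (tendsto_MM hf α δ (δ + α + α) fun i => int2 (adm_Ks hf α δ i)) fun i => ?_
  apply ENNReal.ofReal_le_ofReal
  have h1 := key hf hT (adm_Ks hf α δ i) (Nat.cast_nonneg i) (c := 0) (Or.inl hc) hγ
  set M2 := MM Ω (Ks Ω f α δ i) (δ + α + α) with hM2
  have h2 : 0 ≤ M2 := MM_nonneg _ _ _
  rw [le_div_iff₀ hp]
  rcases h2.eq_or_lt with h3 | h3
  · rw [← h3, zero_mul]
    positivity
  · have h4 : ‖coef Ω f α‖ ^ 2 * M2 * M2 ≤ ‖T (monL Ω hγ)‖ ^ 2 * M2 := by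
      linarith
    have h5 := le_of_mul_le_mul_right h4 h3
    linarith

/-- case B -/
lemma stepB {Ω : BddReinhardtDomain n} {f : (Fin n → ℂ) → ℂ} {T : bergman Ω →L[ℂ] L2 Ω}
    (hf : DifferentiableOn ℂ f Ω.carrier) (hT : HankelHS Ω f T) {α δ : Fin n → ℤ}
    (hα : coef Ω f α ≠ 0) (hγ : Good Ω (δ + α)) (hδ : NN Ω δ < ∞) :
    NN Ω (δ + α + α) * NN Ω δ ≤
      ENNReal.ofReal (‖T (monL Ω hγ)‖ ^ 2 / ‖coef Ω f α‖ ^ 2) * NN Ω δ + NN Ω (δ + α) ^ 2 := by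
  have hp : 0 < ‖coef Ω f α‖ ^ 2 := by
    have := norm_pos_iff.2 hα
    positivity
  have h2 := tendsto_MM hf α δ (δ + α + α) fun i => int2 (adm_Ks hf α δ i)
  have h1 := tendsto_MM hf α δ (δ + α) fun i => int1 (adm_Ks hf α δ i)
  have h0 := tendsto_MM hf α δ δ fun i => int0 (adm_Ks hf α δ i)
  have hL := ENNReal.Tendsto.mul h2 (Or.inr hδ.ne) h0 (Or.inl (NN_pos Ω _).ne')
  have hR := (ENNReal.Tendsto.const_mul
    (a := ENNReal.ofReal (‖T (monL Ω hγ)‖ ^ 2 / ‖coef Ω f α‖ ^ 2)) h0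
    (Or.inr ENNReal.ofReal_ne_top)).add (ENNReal.Tendsto.pow (n := 2) h1)
  refine le_of_tendsto_of_tendsto' hL hR fun i => ?_
  set M2 := MM Ω (Ks Ω f α δ i) (δ + α + α) with hM2
  set M1 := MM Ω (Ks Ω f α δ i) (δ + α) with hM1
  set M0 := MM Ω (Ks Ω f α δ i) δ with hM0
  have e2 : 0 ≤ M2 := MM_nonneg _ _ _
  have e1 : 0 ≤ M1 := MM_nonneg _ _ _
  have e0 : 0 ≤ M0 := MM_nonneg _ _ _
  set Q := ‖T (monL Ω hγ)‖ ^ 2 / ‖coef Ω f α‖ ^ 2 with hQ
  have hQ0 : 0 ≤ Q := by positivity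
  rw [← ENNReal.ofReal_mul e2, ← ENNReal.ofReal_mul hQ0, ← ENNReal.ofReal_pow e1,
    ← ENNReal.ofReal_add (by positivity) (by positivity)]
  apply ENNReal.ofReal_le_ofReal
  rcases e0.eq_or_lt with h3 | h3
  · rw [← h3, mul_zero, mul_zero]
    positivity
  · have h4 := key hf hT (adm_Ks hf α δ i) (Nat.cast_nonneg i) (c := M1 / M0)
      (Or.inr (by rw [← hM0, ← hM1]; field_simp)) hγ
    rw [← hM0, ← hM1, ← hM2] at h4
    have h5 : M2 - 2 * (M1 / M0) * M1 + (M1 / M0) ^ 2 * M0 = M2 - M1 / M0 * M1 := by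
      field_simp
      ring
    rw [h5] at h4
    set V := M2 - M1 / M0 * M1 with hV
    have h6 : ‖coef Ω f α‖ ^ 2 * V ≤ ‖T (monL Ω hγ)‖ ^ 2 := by
      rcases le_or_gt V 0 with h7 | h7
      · have : ‖coef Ω f α‖ ^ 2 * V ≤ 0 := mul_nonpos_of_nonneg_of_nonpos (by positivity) h7
        exact this.trans (by positivity)
      · have h8 : ‖coef Ω f α‖ ^ 2 * V * V ≤ ‖T (monL Ω hγ)‖ ^ 2 * V := by linarith
        exact le_of_mul_le_mul_right h8 h7
    have h9 : V ≤ Q := by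
      rw [hQ, le_div_iff₀ hp]
      linarith
    have h10 : V * M0 = M2 * M0 - M1 ^ 2 := by
      rw [hV]
      field_simp
    nlinarith

open Classical in
/-- the ratio of consecutive norms -/
noncomputable def rr (Ω : BddReinhardtDomain n) (α γ : Fin n → ℤ) : ℝ :=
  if Good Ω (γ - α) then nn Ω γ / nn Ω (γ - α) else 0

/-- One step along a chain. -/
theorem step {Ω : BddReinhardtDomain n} {f : (Fin n → ℂ) → ℂ} {T : bergman Ω →L[ℂ] L2 Ω}
    (hf : DifferentiableOn ℂ f Ω.carrier) (hT : HankelHS Ω f T) {α γ : Fin n → ℤ}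
    (hα : coef Ω f α ≠ 0) (hγ : Good Ω γ) :
    Good Ω (γ + α) ∧ nn Ω (γ + α) / nn Ω γ ≤
      ‖T (monL Ω hγ)‖ ^ 2 / (‖coef Ω f α‖ ^ 2 * nn Ω γ) + rr Ω α γ := by
  obtain ⟨δ, hδ⟩ : ∃ δ, γ = δ + α := ⟨γ - α, (sub_add_cancel _ _).symm⟩
  subst hδ
  have hhol : ∀ z ∈ Ω.carrier, ∀ j, z j ≠ 0 ∨ 0 ≤ (δ + α + α) j := by
    intro z hz j
    rcases coef_hol hf hα hz j with h1 | h1
    · exact Or.inl h1
    · rcases hγ.1 z hz j with h2 | h2
      · exact Or.inl h2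
      · right
        rw [Pi.add_apply]
        exact add_nonneg h2 h1
  have hp : 0 < ‖coef Ω f α‖ ^ 2 := by
    have := norm_pos_iff.2 hα
    positivity
  have hn1 := nn_pos hγ.2
  unfold rr
  rw [add_sub_cancel_right]
  by_cases hG : Good Ω δ
  · rw [if_pos hG]
    have h1 := stepB hf hT hα hγ hG.2
    have hn0 := nn_pos hG.2
    have hfin : NN Ω (δ + α + α) < ∞ := by
      by_contra hcon
      rw [not_lt, top_le_iff] at hcon
      rw [hcon, ENNReal.top_mul (NN_pos Ω δ).ne', top_le_iff] at h1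
      refine absurd h1 (ENNReal.add_ne_top.2 ⟨ENNReal.mul_ne_top ENNReal.ofReal_ne_top hG.2.ne, ?_⟩)
      exact ENNReal.pow_ne_top hγ.2.ne
    refine ⟨⟨hhol, hfin⟩, ?_⟩
    rw [← ofReal_nn hfin, ← ofReal_nn hG.2, ← ofReal_nn hγ.2,
      ← ENNReal.ofReal_mul (nn_pos hfin).le, ← ENNReal.ofReal_mul (by positivity),
      ← ENNReal.ofReal_pow hn1.le, ← ENNReal.ofReal_add (by positivity) (by positivity)] at h1
    have h2 := (ENNReal.ofReal_le_ofReal_iff (by positivity)).1 h1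
    rw [← sub_nonneg]
    have h3 : ‖T (monL Ω hγ)‖ ^ 2 / (‖coef Ω f α‖ ^ 2 * nn Ω (δ + α)) + nn Ω (δ + α) / nn Ω δ -
        nn Ω (δ + α + α) / nn Ω (δ + α) =
        (‖T (monL Ω hγ)‖ ^ 2 / ‖coef Ω f α‖ ^ 2 * nn Ω δ + nn Ω (δ + α) ^ 2 -
          nn Ω (δ + α + α) * nn Ω δ) / (nn Ω (δ + α) * nn Ω δ) := by
      field_simp
    rw [h3]
    exact div_nonneg (by linarith) (by positivity)
  · rw [if_neg hG, add_zero]
    have h1 := stepA hf hT hα hγ hG
    have hfin : NN Ω (δ + α + α) < ∞ := h1.trans_lt ENNReal.ofReal_lt_top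
    refine ⟨⟨hhol, hfin⟩, ?_⟩
    rw [← ofReal_nn hfin] at h1
    have h2 := (ENNReal.ofReal_le_ofReal_iff (by positivity)).1 h1
    rw [← div_div]
    gcongr

end Pool.Agent.H516H
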