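import Pool.Agent.H516_Hankel.Chain

set_option autoImplicit false

open MeasureTheory Set Filter Topology Metric
open scoped ENNReal NNReal ComplexConjugate InnerProductSpace

namespace Pool.Agent.H516H

variable {n : ℕ}

lemma int_chr {β : Fin n → ℤ} (hβ : β ≠ 0) : ∫ t, chr β t ∂(tau n) = 0 := by
  obtain ⟨j, hj⟩ : ∃ j, β j ≠ 0 := by
    by_contra hcon
    push Not at hcon
    exact hβ (funext hcon)
  set s : UnitAddCircle := ((1 / 2 / (β j : ℝ) : ℝ) : UnitAddCircle) with hs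
  have h1 : (AddCircle.toCircle s : ℂ) ^ β j = -1 := by
    have h2 := fourier_add_half_inv_index (T := (1 : ℝ)) hj one_pos (0 : UnitAddCircle)
    rw [zero_add, fourier_eval_zero] at h2
    rw [← h2, fourier_apply, AddCircle.toCircle_zsmul, Circle.coe_zpow]
  have h3 : chr β (Pi.single j s : Tn n) = -1 := by
    unfold chr
    rw [Finset.prod_eq_single j]
    · rw [Pi.single_eq_same, h1]
    · intro i _ hi
      rw [Pi.single_eq_of_ne hi, AddCircle.toCircle_zero, Circle.coe_one, one_zpow]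
    · intro h
      exact absurd (Finset.mem_univ j) h
  have h4 := integral_add_right_eq_self (μ := tau n) (fun t => chr β t) (Pi.single j s)
  have h5 : ∀ t : Tn n, chr β (t + Pi.single j s) = -chr β t := by
    intro t
    rw [chr_add', h3]
    ring
  simp_rw [h5] at h4
  rw [integral_neg] at h4
  exact self_eq_neg.1 h4.symm

lemma inner_monL {Ω : BddReinhardtDomain n} {δ ε : Fin n → ℤ} (hδ : Good Ω δ) (hε : Good Ω ε)
    (hne : δ ≠ ε) : ⟪monL Ω hδ, monL Ω hε⟫_ℂ = 0 := by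
  have h0 : ⟪monL Ω hδ, monL Ω hε⟫_ℂ =
      ⟪(memLp_mon hδ.2).toLp _, ((monL Ω hε : bergman Ω) : L2 Ω)⟫_ℂ := rfl
  rw [h0, inner_toLp (memLp_mon hδ.2) (monL_coe hε),
    int_avg (integrable_mul' (memLp_mon hδ.2) (memLp_mon hε.2))]
  have h1 : ∀ z : Fin n → ℂ, ∫ t, conj (mon δ (act t z)) * mon ε (act t z) ∂(tau n) = 0 := by
    intro z
    have h2 : ∀ t : Tn n, conj (mon δ (act t z)) * mon ε (act t z) =
        (conj (mon δ z) * mon ε z) * chr (ε - δ) t := by
      intro t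
      rw [mon_act, mon_act, map_mul, sub_eq_add_neg, chr_add, chr_neg]
      ring
    simp_rw [h2]
    rw [integral_const_mul, int_chr (sub_ne_zero.2 hne.symm), mul_zero]
  simp_rw [h1]
  simp

lemma norm_sq_monL {Ω : BddReinhardtDomain n} {δ : Fin n → ℤ} (h : Good Ω δ) :
    ‖monL Ω h‖ ^ 2 = nn Ω δ := by
  have h1 := norm_monL h
  rw [← ofReal_nn h.2] at h1
  exact (ENNReal.ofReal_eq_ofReal_iff (sq_nonneg _) (nn_pos h.2).le).1 h1

/-- the normalised monomials -/
noncomputable def em (Ω : BddReinhardtDomain n) (δ : {δ : Fin n → ℤ // Good Ω δ}) : bergman Ω :=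
  ((‖monL Ω δ.2‖⁻¹ : ℝ) : ℂ) • monL Ω δ.2

lemma norm_monL_pos {Ω : BddReinhardtDomain n} {δ : Fin n → ℤ} (h : Good Ω δ) :
    0 < ‖monL Ω h‖ := by
  have h1 := norm_sq_monL h
  have h2 := nn_pos h.2
  rcases (norm_nonneg (monL Ω h)).eq_or_lt with h3 | h3
  · rw [← h3] at h1
    norm_num at h1
    linarith
  · exact h3

lemma orthonormal_em (Ω : BddReinhardtDomain n) : Orthonormal ℂ (em Ω) := by
  constructor
  · intro δ
    have h := norm_monL_pos δ.2
    rw [em, norm_smul, Complex.norm_real, norm_inv, norm_norm, inv_mul_cancel₀ h.ne']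
  · intro δ ε hne
    have h1 := inner_smul_left (𝕜 := ℂ) (monL Ω δ.2)
      (((‖monL Ω ε.2‖⁻¹ : ℝ) : ℂ) • monL Ω ε.2) ((‖monL Ω δ.2‖⁻¹ : ℝ) : ℂ)
    have h2 := inner_smul_right (𝕜 := ℂ) (monL Ω δ.2) (monL Ω ε.2) ((‖monL Ω ε.2‖⁻¹ : ℝ) : ℂ)
    rw [inner_monL δ.2 ε.2 (fun h => hne (Subtype.ext h)), mul_zero] at h2
    rw [h2, mul_zero] at h1
    exact h1

open Classical in
/-- the square of the norm of the image of the normalised monomial -/
noncomputable def qq (Ω : BddReinhardtDomain n) (T : bergman Ω →L[ℂ] L2 Ω) (δ : Fin n → ℤ) : ℝ :=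
  if h : Good Ω δ then ‖T (monL Ω h)‖ ^ 2 / nn Ω δ else 0

lemma norm_T_em {Ω : BddReinhardtDomain n} (T : bergman Ω →L[ℂ] L2 Ω)
    (δ : {δ : Fin n → ℤ // Good Ω δ}) : ‖T (em Ω δ)‖ ^ 2 = qq Ω T δ := by
  rw [qq, dif_pos δ.2, em, map_smul, norm_smul, Complex.norm_real, norm_inv, norm_norm, mul_pow,
    inv_pow, norm_sq_monL]
  field_simp

lemma qq_bound {Ω : BddReinhardtDomain n} {T : bergman Ω →L[ℂ] L2 Ω} (hT : IsHilbertSchmidt T) :
    ∃ S : ℝ, ∀ F : Finset (Fin n → ℤ), ∑ δ ∈ F, qq Ω T δ ≤ S := by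
  classical
  obtain ⟨ι, b, hs⟩ := hT
  refine ⟨∑' k, ‖T (b k)‖ ^ 2, fun F => ?_⟩
  have h1 := hs_bound b T hs (orthonormal_em Ω) (F.subtype (Good Ω))
  have h2 : ∑ x ∈ F.subtype (Good Ω), ‖T (em Ω x)‖ ^ 2 = ∑ δ ∈ F, qq Ω T δ := by
    simp_rw [norm_T_em]
    rw [Finset.sum_subtype_eq_sum_filter, Finset.sum_filter]
    refine Finset.sum_congr rfl fun δ _ => ?_
    by_cases h : Good Ω δ
    · rw [if_pos h]
    · rw [if_neg h, qq, dif_neg h]
  rwa [h2] at h1

section

variable {Ω : BddReinhardtDomain n} {f : (Fin n → ℂ) → ℂ} {T : bergman Ω →L[ℂ] L2 Ω}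
  {α : Fin n → ℤ}

lemma good_add (hf : DifferentiableOn ℂ f Ω.carrier) (hT : HankelHS Ω f T)
    (hα : coef Ω f α ≠ 0) {β : Fin n → ℤ} (hβ : Good Ω β) (k : ℕ) : Good Ω (β + k • α) := by
  induction k with
  | zero => simpa using hβ
  | succ k ih =>
    rw [succ_nsmul, ← add_assoc]
    exact (step hf hT hα ih).1

lemma telescope (hf : DifferentiableOn ℂ f Ω.carrier) (hT : HankelHS Ω f T)
    (hα : coef Ω f α ≠ 0) {β : Fin n → ℤ} (hβ : Good Ω β) (m : ℕ) :
    ‖coef Ω f α‖ ^ 2 * (rr Ω α (β + m • α) - rr Ω α β) ≤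
      ∑ l ∈ Finset.range m, qq Ω T (β + l • α) := by
  induction m with
  | zero => simp
  | succ m ih =>
    rw [Finset.sum_range_succ]
    have hg := good_add hf hT hα hβ m
    have h1 := (step hf hT hα hg).2
    have hp : 0 < ‖coef Ω f α‖ ^ 2 := by
      have := norm_pos_iff.2 hα
      positivity
    have h2 : rr Ω α (β + (m + 1) • α) = nn Ω (β + m • α + α) / nn Ω (β + m • α) := by
      have e1 : β + (m + 1) • α = β + m • α + α := by rw [succ_nsmul, add_assoc]
      rw [e1, rr, add_sub_cancel_right, if_pos hg]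
    have h3 : ‖T (monL Ω hg)‖ ^ 2 / (‖coef Ω f α‖ ^ 2 * nn Ω (β + m • α)) =
        qq Ω T (β + m • α) / ‖coef Ω f α‖ ^ 2 := by
      rw [qq, dif_pos hg, div_div, mul_comm]
    rw [h3] at h1
    rw [h2]
    have h4 : ‖coef Ω f α‖ ^ 2 * (nn Ω (β + m • α + α) / nn Ω (β + m • α)) ≤
        qq Ω T (β + m • α) + ‖coef Ω f α‖ ^ 2 * rr Ω α (β + m • α) := by
      calc ‖coef Ω f α‖ ^ 2 * (nn Ω (β + m • α + α) / nn Ω (β + m • α)) ≤
            ‖coef Ω f α‖ ^ 2 * (qq Ω T (β + m • α) / ‖coef Ω f α‖ ^ 2 + rr Ω α (β + m • α)) := by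
            gcongr
        _ = _ := by field_simp
    linarith

end

lemma mon_single (j : Fin n) (k : ℕ) (z : Fin n → ℂ) :
    mon (Pi.single j (k : ℤ)) z = z j ^ k := by
  unfold mon
  rw [Finset.prod_eq_single j]
  · rw [Pi.single_eq_same, zpow_natCast]
  · intro i _ hi
    rw [Pi.single_eq_of_ne hi, zpow_zero]
  · intro h
    exact absurd (Finset.mem_univ j) h

lemma good_single (Ω : BddReinhardtDomain n) (j : Fin n) (k : ℕ) :
    Good Ω (Pi.single j (k : ℤ)) := by
  refine ⟨fun z _ i => Or.inr ?_, ?_⟩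
  · by_cases h : i = j
    · subst h
      rw [Pi.single_eq_same]
      positivity
    · rw [Pi.single_eq_of_ne h]
  · obtain ⟨R, hR⟩ := Ω.isBounded.exists_norm_le
    have h1 : NN Ω (Pi.single j (k : ℤ)) ≤ ∫⁻ _z, ENNReal.ofReal ((R ^ k) ^ 2) ∂(mu Ω) := by
      apply lintegral_mono_ae
      filter_upwards [ae_restrict_mem Ω.isOpen.measurableSet] with z hz
      apply ENNReal.ofReal_le_ofReal
      rw [mon_single, norm_pow]
      have h2 : ‖z j‖ ≤ R := (norm_le_pi_norm z j).trans (hR z hz)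
      gcongr
    refine h1.trans_lt ?_
    rw [lintegral_const]
    exact ENNReal.mul_lt_top ENNReal.ofReal_lt_top (measure_lt_top _ _)

/-- `|z^α|` is not constant -/
lemma exists_two (Ω : BddReinhardtDomain n) {α : Fin n → ℤ} {j : Fin n} (hj : α j ≠ 0) :
    ∃ p ∈ star Ω, ∃ q ∈ star Ω, ‖mon α p‖ ^ 2 < ‖mon α q‖ ^ 2 := by
  obtain ⟨r, hr, h1⟩ := Metric.isOpen_iff.1 (isOpen_star Ω) _ (base_mem Ω)
  set z := base Ω with hz
  set η : ℝ := r / (2 * (‖z j‖ + 1)) with hη
  have hη0 : 0 < η := by positivity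
  set w : Fin n → ℂ := Function.update z j ((1 + η : ℝ) * z j) with hw
  have hwb : w ∈ ball z r := by
    rw [ball_pi _ hr, mem_univ_pi]
    intro i
    by_cases h : i = j
    · subst h
      rw [hw, Function.update_self, mem_ball, dist_eq_norm]
      have : ((1 + η : ℝ) : ℂ) * z i - z i = (η : ℂ) * z i := by push_cast; ring
      rw [this, norm_mul, Complex.norm_real, Real.norm_of_nonneg hη0.le, hη, div_mul_eq_mul_div,
        div_lt_iff₀ (by positivity)]
      nlinarith [norm_nonneg (z i)]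
    · rw [hw, Function.update_of_ne h]
      exact mem_ball_self hr
  have hws := h1 hwb
  have hzs : z ∈ star Ω := base_mem Ω
  have h2 : ‖mon α w‖ = (1 + η) ^ α j * ‖mon α z‖ := by
    rw [norm_mon, norm_mon, ← Finset.mul_prod_erase Finset.univ _ (Finset.mem_univ j),
      ← Finset.mul_prod_erase Finset.univ (fun i => ‖z i‖ ^ α i) (Finset.mem_univ j), hw,
      Function.update_self, norm_mul, Complex.norm_real, Real.norm_of_nonneg (by positivity),
      mul_zpow, mul_assoc]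
    congr 2
    refine Finset.prod_congr rfl fun i hi => ?_
    rw [Function.update_of_ne (Finset.ne_of_mem_erase hi)]
  have h3 : (1 + η) ^ α j ≠ 1 := by
    rw [Ne, zpow_eq_one_iff_right₀ (by positivity) (by linarith)]
    exact hj
  have h4 : 0 < ‖mon α z‖ := norm_pos_iff.2 (mon_ne α hzs.2)
  have h5 : ‖mon α w‖ ≠ ‖mon α z‖ := by
    rw [h2]
    intro h
    apply h3
    have : (1 + η) ^ α j * ‖mon α z‖ = 1 * ‖mon α z‖ := by rw [h, one_mul]
    exact mul_right_cancel₀ h4.ne' this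
  rcases lt_or_gt_of_ne h5 with h | h
  · exact ⟨w, hws, z, hzs, by gcongr⟩
  · exact ⟨z, hzs, w, hws, by gcongr⟩

/-- **All Laurent coefficients of `f` except the constant one vanish.** -/
theorem coef_zero (hn : 2 ≤ n) {Ω : BddReinhardtDomain n} {f : (Fin n → ℂ) → ℂ}
    {T : bergman Ω →L[ℂ] L2 Ω} (hf : DifferentiableOn ℂ f Ω.carrier) (hT : HankelHS Ω f T)
    {α : Fin n → ℤ} (hα0 : α ≠ 0) : coef Ω f α = 0 := by
  classical
  by_contra hα
  obtain ⟨j0, hj0⟩ : ∃ j, α j ≠ 0 := by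
    by_contra hcon
    push Not at hcon
    exact hα0 (funext hcon)
  obtain ⟨j1, hj1⟩ : ∃ j1 : Fin n, j1 ≠ j0 := by
    have : Nontrivial (Fin n) := Fin.nontrivial_iff_two_le.2 hn
    exact exists_ne j0
  obtain ⟨p, hp, q, hq, hpq⟩ := exists_two Ω hj0
  set lo := ‖mon α p‖ ^ 2 with hlo
  set hi := ‖mon α q‖ ^ 2 with hhi
  have hlo0 : 0 ≤ lo := sq_nonneg _
  have hchain : ∀ i : ℕ, ∃ (k m : ℕ), Good Ω (Pi.single j1 (i : ℤ) - k • α) ∧
      ‖coef Ω f α‖ ^ 2 * ((hi - lo) / 5) ≤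
        ∑ l ∈ Finset.range m, qq Ω T (Pi.single j1 (i : ℤ) - k • α + l • α) := by
    intro i
    obtain ⟨k, hk1, hk2⟩ := descend (α := α) (good_single Ω j1 i) (a := lo + (hi - lo) / 5)
      (ρ := lo + 2 * (hi - lo) / 5) (by linarith) (by linarith) hp (by rw [← hlo]; linarith)
    obtain ⟨m, hm⟩ := ascend (α := α) (good_add hf hT hα hk1) (a := lo + 4 * (hi - lo) / 5)
      (ρ := lo + 3 * (hi - lo) / 5) (by linarith) (by linarith) hq (by rw [← hhi]; linarith)
    refine ⟨k, m, hk1, le_trans ?_ (telescope hf hT hα hk1 m)⟩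
    have : (hi - lo) / 5 ≤ rr Ω α (Pi.single j1 (i : ℤ) - k • α + m • α) -
        rr Ω α (Pi.single j1 (i : ℤ) - k • α) := by linarith
    gcongr
  choose k m hk hsum using hchain
  obtain ⟨S, hS⟩ := qq_bound hT.hilbertSchmidt
  set c := ‖coef Ω f α‖ ^ 2 * ((hi - lo) / 5) with hc
  have hc0 : 0 < c := by
    have := norm_pos_iff.2 hα
    have : 0 < hi - lo := by linarith
    positivity
  -- injectivity
  have hinj : ∀ i i' l l' : ℕ, Pi.single j1 (i : ℤ) - k i • α + l • α =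
      Pi.single j1 (i' : ℤ) - k i' • α + l' • α → i = i' ∧ l = l' := by
    intro i i' l l' h
    have e0 := congrFun h j0
    have e1 := congrFun h j1
    simp only [Pi.add_apply, Pi.sub_apply, Pi.smul_apply, Pi.single_eq_same,
      Pi.single_eq_of_ne hj1.symm] at e0 e1
    simp only [nsmul_eq_mul] at e0 e1
    have e2 : ((l : ℤ) - k i) = (l' : ℤ) - k i' := by
      have : ((l : ℤ) - k i) * α j0 = ((l' : ℤ) - k i') * α j0 := by linarith
      exact mul_right_cancel₀ hj0 this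
    have e3 : (i : ℤ) = i' := by
      have : (i : ℤ) + ((l : ℤ) - k i) * α j1 = i' + ((l' : ℤ) - k i') * α j1 := by linarith
      rw [e2] at this
      linarith
    have e4 : i = i' := by exact_mod_cast e3
    subst e4
    refine ⟨rfl, ?_⟩
    have : (l : ℤ) = l' := by linarith
    exact_mod_cast this
  have hN : ∀ N : ℕ, (N : ℝ) * c ≤ S := by
    intro N
    have h1 := hS ((Finset.range N).biUnion fun i =>
      (Finset.range (m i)).image fun l : ℕ => Pi.single j1 (i : ℤ) - k i • α + l • α)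
    rw [Finset.sum_biUnion] at h1
    · refine le_trans ?_ h1
      have h2 : ∑ _i ∈ Finset.range N, c = (N : ℝ) * c := by simp
      rw [← h2]
      refine Finset.sum_le_sum fun i _ => ?_
      rw [Finset.sum_image]
      · exact hsum i
      · intro l _ l' _ h
        exact (hinj i i l l' h).2
    · intro i _ i' _ hne
      rw [Function.onFun, Finset.disjoint_left]
      intro x hx hx'
      rw [Finset.mem_image] at hx hx'
      obtain ⟨l, _, rfl⟩ := hx
      obtain ⟨l', _, h⟩ := hx'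
      exact hne (hinj i' i l' l h).1.symm
  obtain ⟨N, hN'⟩ := exists_nat_gt (S / c)
  rw [div_lt_iff₀ hc0] at hN'
  have := hN N
  linarith

end Pool.Agent.H516H
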