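import Pool.Agent.H516_Hankel.Key

set_option autoImplicit false

open MeasureTheory Set Filter Topology Metric
open scoped ENNReal NNReal ComplexConjugate InnerProductSpace

namespace Pool.Agent.H516H

variable {n : ℕ}

/-- admissible sets of integration -/
structure Adm (Ω : BddReinhardtDomain n) (f : (Fin n → ℂ) → ℂ) (α δ : Fin n → ℤ)
    (K : Set (Fin n → ℂ)) (B : ℝ) : Prop where
  meas : MeasurableSet K
  sub : K ⊆ star Ω
  inv : ∀ (t : Tn n) (z : Fin n → ℂ), act t z ∈ K ↔ z ∈ K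
  bf : ∀ z ∈ K, ‖f z‖ ≤ B
  bα : ∀ z ∈ K, ‖mon α z‖ ≤ B
  bδ : ∀ z ∈ K, ‖mon δ z‖ ≤ B

/-- mass of a monomial on `K` -/
noncomputable def MM (Ω : BddReinhardtDomain n) (K : Set (Fin n → ℂ)) (β : Fin n → ℤ) : ℝ :=
  ∫ z in K, ‖mon β z‖ ^ 2 ∂(mu Ω)

open Classical in
/-- the test function -/
noncomputable def psi (K : Set (Fin n → ℂ)) (α δ : Fin n → ℤ) (c : ℝ) (z : Fin n → ℂ) : ℂ :=
  if z ∈ K then ((‖mon α z‖ ^ 2 - c : ℝ) : ℂ) * mon δ z else 0

lemma norm_mon_act (β : Fin n → ℤ) (t : Tn n) (z : Fin n → ℂ) :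
    ‖mon β (act t z)‖ = ‖mon β z‖ := by
  rw [mon_act, norm_mul, norm_chr, one_mul]

variable {Ω : BddReinhardtDomain n} {f : (Fin n → ℂ) → ℂ} {α δ : Fin n → ℤ}
  {K : Set (Fin n → ℂ)} {B : ℝ}

lemma psi_act (hK : Adm Ω f α δ K B) (c : ℝ) (t : Tn n) (z : Fin n → ℂ) :
    psi K α δ c (act t z) = chr δ t * psi K α δ c z := by
  unfold psi
  by_cases h : z ∈ K
  · rw [if_pos ((hK.inv t z).2 h), if_pos h, norm_mon_act, mon_act]
    ring
  · rw [if_neg (fun h' => h ((hK.inv t z).1 h')), if_neg h, mul_zero]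

lemma psi_bound (hK : Adm Ω f α δ K B) (hB : 0 ≤ B) (c : ℝ) (z : Fin n → ℂ) :
    ‖psi K α δ c z‖ ≤ (B ^ 2 + |c|) * B := by
  unfold psi
  by_cases h : z ∈ K
  · rw [if_pos h, norm_mul, Complex.norm_real, Real.norm_eq_abs]
    have h1 := hK.bα z h
    have h2 := hK.bδ z h
    have h3 : |‖mon α z‖ ^ 2 - c| ≤ B ^ 2 + |c| := by
      refine (abs_sub _ _).trans ?_
      rw [abs_of_nonneg (sq_nonneg _)]
      gcongr
    gcongr
  · rw [if_neg h, norm_zero]
    positivity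

lemma measurable_psi (hK : Adm Ω f α δ K B) (c : ℝ) : Measurable (psi K α δ c) := by
  unfold psi
  refine Measurable.ite hK.meas ?_ measurable_const
  refine Measurable.mul ?_ (measurable_mon δ)
  exact Complex.measurable_ofReal.comp (((measurable_mon α).norm.pow_const 2).sub_const c)

lemma memLp_psi (hK : Adm Ω f α δ K B) (hB : 0 ≤ B) (c : ℝ) :
    MemLp (psi K α δ c) 2 (mu Ω) :=
  MemLp.of_bound (measurable_psi hK c).aestronglyMeasurable ((B ^ 2 + |c|) * B)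
    (ae_of_all _ fun z => psi_bound hK hB c z)

lemma mem_star_pos (hK : Adm Ω f α δ K B) {z : Fin n → ℂ} (hz : z ∈ K) :
    ‖mon (δ + α) z‖ = ‖mon δ z‖ * ‖mon α z‖ ∧
      ‖mon (δ + α + α) z‖ = ‖mon δ z‖ * ‖mon α z‖ * ‖mon α z‖ := by
  have h1 := (hK.sub hz).2
  constructor
  · rw [mon_add _ _ h1, norm_mul]
  · rw [mon_add _ _ h1, mon_add _ _ h1, norm_mul, norm_mul]

lemma int0 (hK : Adm Ω f α δ K B) : IntegrableOn (fun z => ‖mon δ z‖ ^ 2) K (mu Ω) := by
  refine Measure.integrableOn_of_bounded (M := B ^ 2) (measure_ne_top _ _)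
    ((measurable_mon δ).norm.pow_const 2).aestronglyMeasurable ?_
  filter_upwards [ae_restrict_mem hK.meas] with z hz
  rw [Real.norm_of_nonneg (sq_nonneg _)]
  exact pow_le_pow_left₀ (norm_nonneg _) (hK.bδ z hz) 2

lemma int1 (hK : Adm Ω f α δ K B) : IntegrableOn (fun z => ‖mon (δ + α) z‖ ^ 2) K (mu Ω) := by
  refine Measure.integrableOn_of_bounded (M := (B * B) ^ 2) (measure_ne_top _ _)
    ((measurable_mon _).norm.pow_const 2).aestronglyMeasurable ?_
  filter_upwards [ae_restrict_mem hK.meas] with z hz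
  rw [Real.norm_of_nonneg (sq_nonneg _), (mem_star_pos hK hz).1]
  have h1 := hK.bδ z hz
  have h2 := hK.bα z hz
  have hB : 0 ≤ B := (norm_nonneg _).trans h1
  gcongr

lemma int2 (hK : Adm Ω f α δ K B) :
    IntegrableOn (fun z => ‖mon (δ + α + α) z‖ ^ 2) K (mu Ω) := by
  refine Measure.integrableOn_of_bounded (M := (B * B * B) ^ 2) (measure_ne_top _ _)
    ((measurable_mon _).norm.pow_const 2).aestronglyMeasurable ?_
  filter_upwards [ae_restrict_mem hK.meas] with z hz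
  rw [Real.norm_of_nonneg (sq_nonneg _), (mem_star_pos hK hz).2]
  have h1 := hK.bδ z hz
  have h2 := hK.bα z hz
  have hB : 0 ≤ B := (norm_nonneg _).trans h1
  gcongr

lemma conj_mul_self' (w : ℂ) : conj w * w = ((‖w‖ ^ 2 : ℝ) : ℂ) := by
  rw [mul_comm, Complex.mul_conj, Complex.normSq_eq_norm_sq]

/-- first pairing -/
lemma pair1 (hK : Adm Ω f α δ K B) (c : ℝ) :
    ∫ z, conj (psi K α δ c z) * mon δ z ∂(mu Ω) =
      ((MM Ω K (δ + α) - c * MM Ω K δ : ℝ) : ℂ) := by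
  have h1 : ∀ z, conj (psi K α δ c z) * mon δ z =
      K.indicator (fun z => ((‖mon (δ + α) z‖ ^ 2 - c * ‖mon δ z‖ ^ 2 : ℝ) : ℂ)) z := by
    intro z
    unfold psi
    by_cases h : z ∈ K
    · rw [if_pos h, indicator_of_mem h, map_mul, Complex.conj_ofReal, mul_assoc, conj_mul_self',
        (mem_star_pos hK h).1]
      push_cast
      ring
    · rw [if_neg h, indicator_of_notMem h, map_zero, zero_mul]
  simp_rw [h1]
  rw [integral_indicator hK.meas, integral_complex_ofReal, MM, MM,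
    integral_sub (int1 hK) ((int0 hK).const_mul c), integral_const_mul]

/-- second pairing -/
lemma pair2 (hK : Adm Ω f α δ K B) (c : ℝ) :
    ∫ z, conj (psi K α δ c z) * (conj (mon α z) * mon (δ + α) z) ∂(mu Ω) =
      ((MM Ω K (δ + α + α) - c * MM Ω K (δ + α) : ℝ) : ℂ) := by
  have h1 : ∀ z, conj (psi K α δ c z) * (conj (mon α z) * mon (δ + α) z) =
      K.indicator (fun z => ((‖mon (δ + α + α) z‖ ^ 2 - c * ‖mon (δ + α) z‖ ^ 2 : ℝ) : ℂ)) z := by
    intro z
    unfold psi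
    by_cases h : z ∈ K
    · have h2 : conj (mon δ z) * conj (mon α z) * mon (δ + α) z =
          ((‖mon (δ + α) z‖ ^ 2 : ℝ) : ℂ) := by
        rw [← conj_mul_self', mon_add _ _ (hK.sub h).2, map_mul]
      rw [if_pos h, indicator_of_mem h, map_mul, Complex.conj_ofReal]
      calc _ = ((‖mon α z‖ ^ 2 - c : ℝ) : ℂ) *
            (conj (mon δ z) * conj (mon α z) * mon (δ + α) z) := by ring
        _ = _ := by
          rw [h2, (mem_star_pos hK h).1, (mem_star_pos hK h).2]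
          push_cast
          ring
    · rw [if_neg h, indicator_of_notMem h, map_zero, zero_mul]
  simp_rw [h1]
  rw [integral_indicator hK.meas, integral_complex_ofReal, MM, MM,
    integral_sub (int2 hK) ((int1 hK).const_mul c), integral_const_mul]

/-- the norm of the test function -/
lemma norm_psi (hK : Adm Ω f α δ K B) (hB : 0 ≤ B) (c : ℝ) :
    ‖(memLp_psi hK hB c).toLp _‖ ^ 2 =
      MM Ω K (δ + α + α) - 2 * c * MM Ω K (δ + α) + c ^ 2 * MM Ω K δ := by
  have h0 : ∀ z, ENNReal.ofReal (‖psi K α δ c z‖ ^ 2) = K.indicator (fun z => ENNReal.ofReal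
      ((‖mon (δ + α + α) z‖ ^ 2 - 2 * c * ‖mon (δ + α) z‖ ^ 2) + c ^ 2 * ‖mon δ z‖ ^ 2)) z := by
    intro z
    unfold psi
    by_cases h : z ∈ K
    · rw [if_pos h, indicator_of_mem h, norm_mul, Complex.norm_real, Real.norm_eq_abs, mul_pow,
        sq_abs, (mem_star_pos hK h).1, (mem_star_pos hK h).2]
      congr 1
      ring
    · rw [if_neg h, indicator_of_notMem h]
      simp
  have h1 : ENNReal.ofReal (‖(memLp_psi hK hB c).toLp _‖ ^ 2) =
      ENNReal.ofReal (MM Ω K (δ + α + α) - 2 * c * MM Ω K (δ + α) + c ^ 2 * MM Ω K δ) := by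
    rw [norm_sq_eq]
    have h2 : ∫⁻ z, ENNReal.ofReal (‖(memLp_psi hK hB c).toLp _ z‖ ^ 2) ∂(mu Ω) =
        ∫⁻ z, ENNReal.ofReal (‖psi K α δ c z‖ ^ 2) ∂(mu Ω) := by
      apply lintegral_congr_ae
      filter_upwards [(memLp_psi hK hB c).coeFn_toLp] with z hz
      rw [hz]
    rw [h2]
    simp_rw [h0]
    rw [lintegral_indicator hK.meas, ← ofReal_integral_eq_lintegral_ofReal]
    · congr 1
      have hA : IntegrableOn (fun z => ‖mon (δ + α + α) z‖ ^ 2 - 2 * c * ‖mon (δ + α) z‖ ^ 2) K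
          (mu Ω) := (int2 hK).sub ((int1 hK).const_mul _)
      rw [integral_add hA ((int0 hK).const_mul _), integral_sub (int2 hK) ((int1 hK).const_mul _),
        integral_const_mul, integral_const_mul, MM, MM, MM]
    · exact ((int2 hK).sub ((int1 hK).const_mul _)).add ((int0 hK).const_mul _)
    · filter_upwards [ae_restrict_mem hK.meas] with z hz
      rw [(mem_star_pos hK hz).1, (mem_star_pos hK hz).2, Pi.zero_apply]
      have : (‖mon δ z‖ * ‖mon α z‖ * ‖mon α z‖) ^ 2 - 2 * c * (‖mon δ z‖ * ‖mon α z‖) ^ 2 +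
          c ^ 2 * ‖mon δ z‖ ^ 2 = ((‖mon α z‖ ^ 2 - c) * ‖mon δ z‖) ^ 2 := by ring
      rw [this]
      positivity
  have hnn : 0 ≤ MM Ω K (δ + α + α) - 2 * c * MM Ω K (δ + α) + c ^ 2 * MM Ω K δ := by
    have hA : IntegrableOn (fun z => ‖mon (δ + α + α) z‖ ^ 2 - 2 * c * ‖mon (δ + α) z‖ ^ 2) K
          (mu Ω) := (int2 hK).sub ((int1 hK).const_mul _)
    have h3 : MM Ω K (δ + α + α) - 2 * c * MM Ω K (δ + α) + c ^ 2 * MM Ω K δ =
        ∫ z in K, ((‖mon (δ + α + α) z‖ ^ 2 - 2 * c * ‖mon (δ + α) z‖ ^ 2) +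
          c ^ 2 * ‖mon δ z‖ ^ 2) ∂(mu Ω) := by
      rw [integral_add hA ((int0 hK).const_mul _), integral_sub (int2 hK) ((int1 hK).const_mul _),
        integral_const_mul, integral_const_mul, MM, MM, MM]
    rw [h3]
    apply setIntegral_nonneg hK.meas
    intro z hz
    rw [(mem_star_pos hK hz).1, (mem_star_pos hK hz).2]
    have : (‖mon δ z‖ * ‖mon α z‖ * ‖mon α z‖) ^ 2 - 2 * c * (‖mon δ z‖ * ‖mon α z‖) ^ 2 +
        c ^ 2 * ‖mon δ z‖ ^ 2 = ((‖mon α z‖ ^ 2 - c) * ‖mon δ z‖) ^ 2 := by ring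
    rw [this]
    positivity
  exact (ENNReal.ofReal_eq_ofReal_iff (sq_nonneg _) hnn).1 h1

end Pool.Agent.H516H
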