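import Pool.Agent.H516_Hankel.Const

set_option autoImplicit false

open MeasureTheory
open scoped ENNReal ComplexConjugate

/-!
The notions used in the statement of the theorem: `L²(Ω)`, the Bergman space `A²(Ω)`, the Hankel
operator with symbol `conj f`, Hilbert-Schmidt operators.
-/

namespace Pool.Agent.H516H

variable {n : ℕ} (Ω : BddReinhardtDomain n)

/-- Lebesgue measure on `Ω` -/
noncomputable def lebOn : Measure (Fin n → ℂ) := volume.restrict Ω.carrier

/-- the Hilbert space `L²(Ω)` -/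
def L2Space : Type := Lp ℂ 2 (lebOn Ω)

noncomputable instance : NormedAddCommGroup (L2Space Ω) :=
  (inferInstance : NormedAddCommGroup (Lp ℂ 2 (lebOn Ω)))

noncomputable instance : InnerProductSpace ℂ (L2Space Ω) :=
  (inferInstance : InnerProductSpace ℂ (Lp ℂ 2 (lebOn Ω)))

instance : CompleteSpace (L2Space Ω) := 
  (inferInstance : CompleteSpace (Lp ℂ 2 (lebOn Ω)))

/-- the underlying function of an element of `L²(Ω)` (defined almost everywhere) -/
noncomputable def toFun (g : L2Space Ω) : (Fin n → ℂ) → ℂ := AEEqFun.cast (Subtype.val g)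

/-- the element of `L²(Ω)` given by a square integrable function -/
noncomputable def ofFun (u : (Fin n → ℂ) → ℂ) (h : MemLp u 2 (lebOn Ω)) : L2Space Ω := h.toLp u

/-- an element of `L²(Ω)` represented by a holomorphic function on `Ω` -/
def Hol (g : L2Space Ω) : Prop :=
  ∃ G : (Fin n → ℂ) → ℂ, DifferentiableOn ℂ G Ω.carrier ∧ toFun Ω g =ᵐ[lebOn Ω] G

lemma hol_add {a b : L2Space Ω} (ha : Hol Ω a) (hb : Hol Ω b) : Hol Ω (a + b) :=
  IsHol.add (Ω := Ω) ha hb

lemma hol_zero : Hol Ω (0 : L2Space Ω) := IsHol.zero Ω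

lemma hol_smul (c : ℂ) {a : L2Space Ω} (ha : Hol Ω a) : Hol Ω (c • a) :=
  IsHol.smul (Ω := Ω) c ha

/-- the Bergman space `A²(Ω)`, a closed subspace of `L²(Ω)` -/
def A2 : Submodule ℂ (L2Space Ω) where
  carrier := {g | Hol Ω g}
  add_mem' := hol_add Ω
  zero_mem' := hol_zero Ω
  smul_mem' := fun c _ h => hol_smul Ω c h

lemma completeSpace_A2 : CompleteSpace (A2 Ω) := completeSpace_bergman Ω

instance : CompleteSpace (A2 Ω) := completeSpace_A2 Ω

/-- the operator `I - P` on `L²(Ω)`, where `P` is the orthogonal projection onto `A²(Ω)` -/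
noncomputable def oneSubP (u : L2Space Ω) : L2Space Ω := u - (A2 Ω).starProjection u

/-- the Bergman space `A²(Ω)` as a Hilbert space of its own -/
def A2Space : Type := A2 Ω

noncomputable instance : NormedAddCommGroup (A2Space Ω) :=
  (inferInstance : NormedAddCommGroup (A2 Ω))

noncomputable instance : InnerProductSpace ℂ (A2Space Ω) :=
  (inferInstance : InnerProductSpace ℂ (A2 Ω))

/-- the inclusion of `A²(Ω)` in `L²(Ω)` -/
def incl (g : A2Space Ω) : L2Space Ω := Subtype.val g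

/-- the function `conj f * g` for `g ∈ A²(Ω)` -/
noncomputable def prodFun (f : (Fin n → ℂ) → ℂ) (g : A2Space Ω) : (Fin n → ℂ) → ℂ :=
  fun z => conj (f z) * toFun Ω (incl Ω g) z

/-- `conj f * g` is square integrable: `g` is in the domain of the Hankel operator -/
def InDom (f : (Fin n → ℂ) → ℂ) (g : A2Space Ω) : Prop := MemLp (prodFun Ω f g) 2 (lebOn Ω)

/-- the value `(I - P) (conj f * g)` of the Hankel operator at an element `g` of its domain -/
noncomputable def hankelOp (f : (Fin n → ℂ) → ℂ) (g : A2Space Ω) (hg : InDom Ω f g) : L2Space Ω :=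
  oneSubP Ω (ofFun Ω (prodFun Ω f g) hg)

/-- bounded operators `A²(Ω) → L²(Ω)` -/
def Op : Type := A2Space Ω →L[ℂ] L2Space Ω

/-- the value of an operator -/
noncomputable def ev (T : Op Ω) : A2Space Ω → L2Space Ω :=
  DFunLike.coe (F := A2Space Ω →L[ℂ] L2Space Ω) T

/-- `T : A²(Ω) → L²(Ω)` is a Hilbert-Schmidt operator -/
def IsHS (T : Op Ω) : Prop :=
  ∃ (ι : Type) (b : HilbertBasis ι ℂ (A2Space Ω)), Summable fun i => ‖ev Ω T (b i)‖ ^ 2

/-- The Hankel operator with symbol `conj f` is densely defined and `T` is a Hilbert-Schmidt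
operator on `A²(Ω)` that extends it. -/
def IsHSExtension (f : (Fin n → ℂ) → ℂ) (T : Op Ω) : Prop :=
  Dense {g | InDom Ω f g} ∧ (∀ (g : A2Space Ω) (hg : InDom Ω f g), ev Ω T g = hankelOp Ω f g hg) ∧
    IsHS Ω T

theorem main (hn : 2 ≤ n) (f : (Fin n → ℂ) → ℂ) (hf : DifferentiableOn ℂ f Ω.carrier) (T : Op Ω)
    (hT : IsHSExtension Ω f T) : (∀ g, ev Ω T g = 0) ∧ ∃ c : ℂ, ∀ z ∈ Ω.carrier, f z = c := by
  have h : HankelHS (Ω := Ω) f T := ⟨hT.1, hT.2.1, hT.2.2⟩
  refine ⟨fun g => ?_, f_const hn hf h⟩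
  have h1 := T_zero hn hf h
  have h2 : ∀ S : bergman Ω →L[ℂ] L2 Ω, S = 0 → ∀ g, S g = 0 := by
    intro S hS g
    rw [hS]
    rfl
  exact h2 T h1 g

end Pool.Agent.H516H
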