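import Pool.Agent.H516_Hankel.Defs

set_option autoImplicit false

open MeasureTheory Set Filter Topology Metric
open scoped ENNReal NNReal ComplexConjugate

namespace Pool.Agent.H516H

variable {n : ℕ}

/-- the torus -/
abbrev Tn (n : ℕ) : Type := Fin n → UnitAddCircle

/-- the Haar probability measure of the torus -/
noncomputable def tau (n : ℕ) : Measure (Tn n) := Measure.pi fun _ => AddCircle.haarAddCircle

instance : IsProbabilityMeasure (tau n) := by unfold tau; infer_instance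

instance : Measure.IsAddHaarMeasure (tau n) := by unfold tau; infer_instance

/-- the action of the torus on `ℂ^n` -/
noncomputable def act (t : Tn n) (z : Fin n → ℂ) : Fin n → ℂ :=
  fun j => (AddCircle.toCircle (t j) : ℂ) * z j

/-- the Laurent monomials -/
noncomputable def mon (δ : Fin n → ℤ) (z : Fin n → ℂ) : ℂ := ∏ j, z j ^ δ j

/-- the characters of the torus -/
noncomputable def chr (δ : Fin n → ℤ) (t : Tn n) : ℂ :=
  ∏ j, (AddCircle.toCircle (t j) : ℂ) ^ δ j

lemma tc_ne (x : UnitAddCircle) : (AddCircle.toCircle x : ℂ) ≠ 0 := Circle.coe_ne_zero _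

lemma act_add (s t : Tn n) (z : Fin n → ℂ) : act (s + t) z = act s (act t z) := by
  funext j
  simp only [act, Pi.add_apply, AddCircle.toCircle_add, Circle.coe_mul]
  ring

lemma act_zero (z : Fin n → ℂ) : act 0 z = z := by
  funext j
  simp [act, AddCircle.toCircle_zero]

lemma act_apply (t : Tn n) (z : Fin n → ℂ) (j : Fin n) :
    act t z j = (AddCircle.toCircle (t j) : ℂ) * z j := rfl

lemma norm_act (t : Tn n) (z : Fin n → ℂ) (j : Fin n) : ‖act t z j‖ = ‖z j‖ := by
  rw [act_apply, norm_mul, Circle.norm_coe, one_mul]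

lemma act_ne (t : Tn n) {z : Fin n → ℂ} {j : Fin n} (h : z j ≠ 0) : act t z j ≠ 0 := by
  rw [act_apply]
  exact mul_ne_zero (tc_ne _) h

lemma continuous_act : Continuous (fun p : Tn n × (Fin n → ℂ) => act p.1 p.2) := by
  unfold act
  refine continuous_pi fun j => ?_
  have h1 : Continuous (fun p : Tn n × (Fin n → ℂ) => (AddCircle.toCircle (p.1 j) : ℂ)) :=
    continuous_subtype_val.comp (AddCircle.continuous_toCircle.comp (by fun_prop))
  exact h1.mul (by fun_prop)

lemma mon_act (δ : Fin n → ℤ) (t : Tn n) (z : Fin n → ℂ) :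
    mon δ (act t z) = chr δ t * mon δ z := by
  unfold mon chr
  rw [← Finset.prod_mul_distrib]
  refine Finset.prod_congr rfl fun j _ => ?_
  rw [act_apply, mul_zpow]

lemma chr_add (δ ε : Fin n → ℤ) (t : Tn n) : chr (δ + ε) t = chr δ t * chr ε t := by
  unfold chr
  rw [← Finset.prod_mul_distrib]
  refine Finset.prod_congr rfl fun j _ => ?_
  rw [Pi.add_apply, zpow_add₀ (tc_ne _)]

lemma chr_zero (t : Tn n) : chr (0 : Fin n → ℤ) t = 1 := by
  unfold chr
  simp

lemma norm_chr (δ : Fin n → ℤ) (t : Tn n) : ‖chr δ t‖ = 1 := by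
  unfold chr
  rw [norm_prod]
  refine Finset.prod_eq_one fun j _ => ?_
  rw [norm_zpow, Circle.norm_coe, one_zpow]

lemma chr_ne (δ : Fin n → ℤ) (t : Tn n) : chr δ t ≠ 0 := by
  intro h
  have := norm_chr δ t
  rw [h, norm_zero] at this
  exact zero_ne_one this

lemma chr_neg (δ : Fin n → ℤ) (t : Tn n) : chr (-δ) t = conj (chr δ t) := by
  have h1 : chr (-δ) t * chr δ t = 1 := by rw [← chr_add, neg_add_cancel, chr_zero]
  have h2 : conj (chr δ t) * chr δ t = 1 := by
    rw [← Complex.normSq_eq_conj_mul_self, Complex.normSq_eq_norm_sq, norm_chr]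
    simp
  exact mul_right_cancel₀ (chr_ne δ t) (h1.trans h2.symm)

lemma chr_add' (δ : Fin n → ℤ) (s t : Tn n) : chr δ (s + t) = chr δ s * chr δ t := by
  unfold chr
  rw [← Finset.prod_mul_distrib]
  refine Finset.prod_congr rfl fun j _ => ?_
  rw [Pi.add_apply, AddCircle.toCircle_add, Circle.coe_mul, mul_zpow]

lemma continuous_chr (δ : Fin n → ℤ) : Continuous (chr δ) := by
  unfold chr
  refine continuous_finsetProd _ fun j _ => ?_
  have h1 : Continuous (fun t : Tn n => (AddCircle.toCircle (t j) : ℂ)) :=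
    continuous_subtype_val.comp (AddCircle.continuous_toCircle.comp (by fun_prop))
  exact h1.zpow₀ _ fun t => Or.inl (tc_ne _)

lemma mon_add (δ ε : Fin n → ℤ) {z : Fin n → ℂ} (hz : ∀ j, z j ≠ 0) :
    mon (δ + ε) z = mon δ z * mon ε z := by
  unfold mon
  rw [← Finset.prod_mul_distrib]
  refine Finset.prod_congr rfl fun j _ => ?_
  rw [Pi.add_apply, zpow_add₀ (hz j)]

lemma mon_zero (z : Fin n → ℂ) : mon (0 : Fin n → ℤ) z = 1 := by
  unfold mon
  simp

lemma mon_ne (δ : Fin n → ℤ) {z : Fin n → ℂ} (hz : ∀ j, z j ≠ 0) : mon δ z ≠ 0 := by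
  unfold mon
  exact Finset.prod_ne_zero_iff.2 fun j _ => zpow_ne_zero _ (hz j)

lemma mon_neg (δ : Fin n → ℤ) {z : Fin n → ℂ} (hz : ∀ j, z j ≠ 0) :
    mon (-δ) z = (mon δ z)⁻¹ := by
  have h1 : mon (-δ) z * mon δ z = 1 := by rw [← mon_add _ _ hz, neg_add_cancel, mon_zero]
  exact eq_inv_of_mul_eq_one_left h1

lemma mon_differentiableAt (δ : Fin n → ℤ) {z : Fin n → ℂ} (hz : ∀ j, z j ≠ 0 ∨ 0 ≤ δ j) :
    DifferentiableAt ℂ (mon δ) z := by
  have h0 : mon δ = fun z : Fin n → ℂ => ∏ j, z j ^ δ j := rfl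
  rw [h0]
  have h2 : ∀ j : Fin n, DifferentiableAt ℂ (fun z : Fin n → ℂ => z j ^ δ j) z := by
    intro j
    have h1 : DifferentiableAt ℂ (fun z : Fin n → ℂ => z j) z := by fun_prop
    exact h1.zpow (hz j)
  exact (HasFDerivAt.finsetProd (u := Finset.univ)
    (g := fun (j : Fin n) (z : Fin n → ℂ) => z j ^ δ j)
    fun j _ => (h2 j).hasFDerivAt).differentiableAt

lemma norm_mon (δ : Fin n → ℤ) (z : Fin n → ℂ) : ‖mon δ z‖ = ∏ j, ‖z j‖ ^ δ j := by
  unfold mon
  rw [norm_prod]
  simp_rw [norm_zpow]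

/-- The set of points of `Ω` with nonzero coordinates. -/
def star (Ω : BddReinhardtDomain n) : Set (Fin n → ℂ) := {z | z ∈ Ω.carrier ∧ ∀ j, z j ≠ 0}

lemma mem_of_norm_eq (Ω : BddReinhardtDomain n) {z w : Fin n → ℂ} (hz : z ∈ Ω.carrier)
    (h : ∀ j, ‖w j‖ = ‖z j‖) : w ∈ Ω.carrier := by
  have h1 := Ω.rotate z hz (fun j => Complex.arg (w j) - Complex.arg (z j))
  convert h1 using 1
  funext j
  by_cases hzj : z j = 0
  · have h2 : w j = 0 := by
      rw [← norm_eq_zero, h j, hzj, norm_zero]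
    rw [h2, hzj, mul_zero]
  · have e1 := Complex.norm_mul_exp_arg_mul_I (z j)
    have e2 := Complex.norm_mul_exp_arg_mul_I (w j)
    calc w j = (‖z j‖ : ℂ) * Complex.exp (Complex.arg (w j) * Complex.I) := by
          rw [← h j]; exact e2.symm
      _ = Complex.exp (((Complex.arg (w j) - Complex.arg (z j) : ℝ) : ℂ) * Complex.I) *
          ((‖z j‖ : ℂ) * Complex.exp (Complex.arg (z j) * Complex.I)) := by
          rw [mul_left_comm, ← Complex.exp_add]
          congr 2
          push_cast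
          ring
      _ = _ := by rw [e1]

lemma act_mem (Ω : BddReinhardtDomain n) {z : Fin n → ℂ} (hz : z ∈ Ω.carrier) (t : Tn n) :
    act t z ∈ Ω.carrier := mem_of_norm_eq Ω hz fun j => norm_act t z j

lemma act_mem_star (Ω : BddReinhardtDomain n) {z : Fin n → ℂ} (hz : z ∈ star Ω) (t : Tn n) :
    act t z ∈ star Ω := ⟨act_mem Ω hz.1 t, fun j => act_ne t (hz.2 j)⟩

lemma isOpen_star (Ω : BddReinhardtDomain n) : IsOpen (star Ω) := by
  have h1 : star Ω = Ω.carrier ∩ ⋂ j, {z : Fin n → ℂ | z j ≠ 0} := by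
    ext z
    simp [star]
  rw [h1]
  refine Ω.isOpen.inter (isOpen_iInter_of_finite fun j => ?_)
  exact isOpen_ne_fun (by fun_prop) continuous_const

end Pool.Agent.H516H
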